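import Pool.Agent.P.MP_8598be_al.E.Defs

/-!
Multigraded ideals of the free Lie algebra, chains of them, and the action of permutations of the
generators.
-/

namespace Pool.Agent.P.MP_8598be_al.N

open Module

variable (F : Type) [Field F] {d : ℕ}

/-- The homogeneous part of multidegree `α` of the free Lie algebra. -/
noncomputable def mpiece (α : Fin d → ℕ) : Submodule F (FreeLieAlgebra F (Fin d)) :=
  Submodule.span F (E.lieT F '' {t | E.wtT t = α})

/-- The automorphism of the free Lie algebra that permutes the generators. -/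
noncomputable def permL (σ : Equiv.Perm (Fin d)) :
    FreeLieAlgebra F (Fin d) →ₗ⁅F⁆ FreeLieAlgebra F (Fin d) :=
  FreeLieAlgebra.lift F fun k => FreeLieAlgebra.of F (σ k)

/-- A multigraded ideal that contains everything of degree larger than `c`. -/
structure IsMId (c : ℕ) (J : (Fin d → ℕ) → Submodule F (FreeLieAlgebra F (Fin d))) : Prop where
  le : ∀ α, J α ≤ mpiece F α
  top : ∀ α, c < ∑ k, α k → J α = mpiece F α
  lie : ∀ α k, ∀ x ∈ J α, ⁅x, FreeLieAlgebra.of F k⁆ ∈ J (α + Pi.single k 1)

/-- The multidegrees with all entries at most `c`. -/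
def box (c d : ℕ) : Finset (Fin d → ℕ) := Fintype.piFinset fun _ => Finset.range (c + 1)

/-- The codimension of a multigraded ideal. -/
noncomputable def codim (c : ℕ) (J : (Fin d → ℕ) → Submodule F (FreeLieAlgebra F (Fin d))) : ℕ :=
  ∑ α ∈ box c d, (finrank F (mpiece F α) - finrank F (J α))

/-- An ascending chain of multigraded ideals with total codimension `n`. -/
structure IsChain (c n : ℕ) (J : ℕ → (Fin d → ℕ) → Submodule F (FreeLieAlgebra F (Fin d))) :
    Prop where
  mono : Monotone J
  mid : ∀ j, IsMId F c (J j)
  top : ∀ j, n ≤ j → J j = mpiece F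
  sum : ∑ j ∈ Finset.range n, codim F c (J j) = n

/-- The family of subspaces is stable under the permutation `σ` of the generators. -/
def Stable (σ : Equiv.Perm (Fin d))
    (J : (Fin d → ℕ) → Submodule F (FreeLieAlgebra F (Fin d))) : Prop :=
  ∀ α, ∀ x ∈ J (α ∘ σ), permL F σ x ∈ J α

/-- The number of chains of multigraded ideals with total codimension `n` that are stable under
the group `P` of permutations of the generators. -/
noncomputable def fixCount (c n : ℕ) (P : Subgroup (Equiv.Perm (Fin d))) : ℕ :=
  Nat.card {J : ℕ → (Fin d → ℕ) → Submodule F (FreeLieAlgebra F (Fin d)) //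
    IsChain F c n J ∧ ∀ σ ∈ P, ∀ j, Stable F σ (J j)}

end Pool.Agent.P.MP_8598be_al.N
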