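import Pool.Agent.P.MP_8598be_al.E.PosMult

/-!
Multiplicities of weights in two of three letters.
-/

namespace Pool.Agent.P.MP_8598be_al.N

open Module E

variable {I : Type} [Fintype I] {c : ℕ}

theorem ftmult_map {d d' : ℕ} (ι : Fin d → Fin d') (w : List (Fin d)) :
    FreeLieAlgebra.lift ℚ (fun k => FreeLieAlgebra.of ℚ (ι k)) (posmultW w) =
      posmultW (w.map ι) := by
  induction w with
  | nil => simp [posmultW]
  | cons j w ih =>
    rcases w with _ | ⟨k, w⟩
    · simp [posmultW]
    · rw [posmultW, LieHom.map_lie, ih, FreeLieAlgebra.lift_of_apply]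
      rfl

theorem mult_zero {τ : I → FreeMagma (Fin 3)} (h : IsBasis c 3 τ) (α : Fin 3 → ℕ)
    (hα : ∑ k, α k ≤ 4) {j : Fin 3} (hj : α j = 0) : Nat.card {u // wtT (τ u) = α} ≤ 1 := by
  by_cases h0 : ∑ k, α k ≤ 2
  · exact mult_two h α h0
  refine posmult_one h α (FreeLieAlgebra.lift ℚ (fun k => FreeLieAlgebra.of ℚ (j.succAbove k))
    (posmultG (α ∘ j.succAbove))) fun w hw => ?_
  have h1 := posmult_len hw
  have h2 : ∀ k ∈ w, k ∈ Set.range j.succAbove := fun k hk => by
    rw [Fin.range_succAbove]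
    rintro rfl
    exact List.count_eq_zero.1 ((hw k).trans hj) hk
  obtain ⟨w', rfl⟩ : ∃ w' : List (Fin 2), w'.map j.succAbove = w := by
    clear hw h1
    induction w with
    | nil => exact ⟨[], rfl⟩
    | cons k w ih =>
      obtain ⟨w', rfl⟩ := ih fun k hk => h2 k (List.mem_cons_of_mem _ hk)
      obtain ⟨k', rfl⟩ := h2 k List.mem_cons_self
      exact ⟨k' :: w', rfl⟩
  rw [List.length_map] at h1
  have h3 := posmult_small (α ∘ j.succAbove) w' (fun k => by
    rw [Function.comp_apply, ← hw, List.count_map_of_injective _ _ Fin.succAbove_right_injective])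
    (by omega) (by omega)
  obtain ⟨a, ha⟩ := Submodule.mem_span_singleton.1 h3
  rw [← ftmult_map, ← ha, map_smul]
  exact Submodule.smul_mem _ _ (Submodule.mem_span_singleton_self _)

end Pool.Agent.P.MP_8598be_al.N
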