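import Pool.Agent.P.MP_8598be_al.E.PosFib
import Pool.Agent.P.MP_8598be_al.E.PosRank
import Pool.Agent.P.MP_8598be_al.E.PosLow

/-!
Flags that contain prescribed subspaces at the sinks.
-/

namespace Pool.Agent.P.MP_8598be_al.N

open Module E

section Abs

variable {X : Type} (p : Set X → Prop)

/-- A sum of at most `B` indicator functions of sets with the property `p`. -/
def GoodS (B : ℕ) (f : X → ℕ) : Prop :=
  ∃ L : List (Set X), L.length ≤ B ∧ (∀ S ∈ L, p S) ∧
    ∀ x, f x = (L.map fun S => S.indicator 1 x).sum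

variable {p}

theorem GoodS.const (hu : p Set.univ) (m : ℕ) : GoodS p m fun _ => m :=
  ⟨List.replicate m Set.univ, by simp, fun S h => by
    rw [List.eq_of_mem_replicate h]
    exact hu, fun x => by simp⟩

theorem GoodS.ind {S : Set X} (h : p S) : GoodS p 1 (S.indicator 1) :=
  ⟨[S], le_rfl, by simpa using h, fun x => by simp⟩

theorem GoodS.mono {B B' : ℕ} {f : X → ℕ} (h : GoodS p B f) (hB : B ≤ B') : GoodS p B' f :=
  h.imp fun _ h => ⟨h.1.trans hB, h.2⟩

theorem GoodS.add {B B' : ℕ} {f g : X → ℕ} (h : GoodS p B f) (h' : GoodS p B' g) :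
    GoodS p (B + B') fun x => f x + g x := by
  obtain ⟨L, h1, h2, h3⟩ := h
  obtain ⟨L', h1', h2', h3'⟩ := h'
  exact ⟨L ++ L', by rw [List.length_append]; omega,
    fun S h => (List.mem_append.1 h).elim (h2 S) (h2' S), fun x => by simp [h3, h3']⟩

theorem GoodS.mul (hu : p Set.univ) (hi : ∀ S T, p S → p T → p (S ∩ T)) {B B' : ℕ} {f g : X → ℕ}
    (h : GoodS p B f) (h' : GoodS p B' g) : GoodS p (B * B') fun x => f x * g x := by
  obtain ⟨L, h1, h2, h3⟩ := h
  obtain rfl : f = _ := funext h3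
  refine GoodS.mono ?_ (Nat.mul_le_mul_right _ h1)
  clear h1 h3
  induction L with
  | nil => simpa using GoodS.const hu 0
  | cons S L ih =>
    obtain ⟨L', h1', h2', h3'⟩ := h'
    have h4 : GoodS p B' fun x => S.indicator 1 x * g x :=
      ⟨L'.map (S ∩ ·), by simpa using h1', fun T hT => by
        obtain ⟨T', hT', rfl⟩ := List.mem_map.1 hT
        exact hi _ _ (h2 S (by simp)) (h2' T' hT'), fun x => by
        beta_reduce
        rw [h3', List.map_map, ← List.sum_map_mul_left]
        exact congrArg List.sum (List.map_congr_left fun T _ => by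
          simp [Set.inter_indicator_one])⟩
    simpa [add_mul, add_comm] using h4.add (ih fun T hT => h2 T (by simp [hT]))

theorem GoodS.prod (hu : p Set.univ) (hi : ∀ S T, p S → p T → p (S ∩ T)) {ι : Type}
    (s : Finset ι) {B : ι → ℕ} {f : ι → X → ℕ} (h : ∀ i ∈ s, GoodS p (B i) (f i)) :
    GoodS p (∏ i ∈ s, B i) fun x => ∏ i ∈ s, f i x := by
  classical
  induction s using Finset.induction_on with
  | empty => simpa using GoodS.const hu 1
  | insert a s ha ih =>
    simpa only [Finset.prod_insert ha] using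
      (h a (by simp)).mul hu hi (ih fun i hi => h i (by simp [hi]))

theorem GoodS.count [Fintype X] {l M : ℕ} (hp : ∀ S, p S → ∃ N ≤ M, Nat.card S ≡ N [MOD l])
    {B : ℕ} {f : X → ℕ} (h : GoodS p B f) : ∃ N ≤ B * M, ∑ x, f x ≡ N [MOD l] := by
  classical
  obtain ⟨L, h1, h2, h3⟩ := h
  obtain rfl : f = _ := funext h3
  suffices ∃ N ≤ L.length * M, ∑ x, (L.map fun S => S.indicator 1 x).sum ≡ N [MOD l] from
    this.imp fun N h => ⟨h.1.trans (Nat.mul_le_mul_right _ h1), h.2⟩
  clear h1 h3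
  induction L with
  | nil => exact ⟨0, by simp, by simp [Nat.ModEq]⟩
  | cons S L ih =>
    obtain ⟨N, h3, h4⟩ := ih fun T hT => h2 T (by simp [hT])
    obtain ⟨N', h5, h6⟩ := hp S (h2 S (by simp))
    refine ⟨N' + N, by rw [List.length_cons, add_mul]; omega, ?_⟩
    simp only [List.map_cons, List.sum_cons, Finset.sum_add_distrib]
    refine Nat.ModEq.add (Eq.trans (congrArg (· % l) ?_) h6) h4
    simp [Set.indicator_apply, Nat.card_eq_fintype_card, Fintype.card_subtype]

end Abs

section Sink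

variable {F : Type} [Field F] [Fintype F] {l : ℕ} {Γ κ : Type} [Fintype Γ] {V : Γ → Type}
  [∀ α, AddCommGroup (V α)] [∀ α, Module F (V α)] [∀ α, FiniteDimensional F (V α)]

theorem fam_sinkC (hl : l ∣ Fintype.card F - 1) (a : κ → ∀ α β, V α →ₗ[F] V β) (s : Γ → Prop)
    [DecidablePred s] (hs : ∀ k β γ, s β → a k β γ = 0) {r : ℕ} (n : Fin (r + 1) → Γ → ℕ)
    (hn : Monotone n) (h0 : n 0 = 0) [Fintype (Fam F (res F a s) fun t α => n t α)]
    (C : ∀ α, ℕ → Submodule F (V α)) (hC : ∀ α, Monotone (C α))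
    (hC' : ∀ α, ¬ s α → ∀ j, C α j = ⊥) :
    Nat.card {X : Fam F a n | ∀ α j, C α j ≤ X.1 α j} ≡
      ∑ G : Fam F (res F a s) fun t α => n t α, ∏ β : {β // s β},
        ∏ j ∈ Finset.range (finrank F (V β)), (j + 1 - finrank F
          (img F a s (fun α => G.1 α (n (lastT n β j) α)) β ⊔ C β j :)) [MOD l] := by
  let ρ : {X : Fam F a n | ∀ α j, C α j ≤ X.1 α j} → Fam F (res F a s) fun t α => n t α :=
    fun X => ⟨fun α => X.1.1 α, fun α => X.1.2.1 α, fun t k α β => X.1.2.2 t k α β⟩
  have := finite_fam (F := F) a n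
  rw [Nat.card_congr (Equiv.sigmaFiberEquiv ρ).symm, Nat.card_sigma]
  refine Nat.ModEq.sum fun G _ => ?_
  have e : Nat.card {X // ρ X = G} = Nat.card (∀ β : {β // s β},
      {H : ℕ → Submodule F (V β) // IsFlag F H ∧
        ∀ j, img F a s (fun α => G.1 α (n (lastT n β j) α)) β ⊔ C β j ≤ H j}) := by
    refine Nat.card_eq_of_bijective (fun X β => ⟨X.1.1.1 β, X.1.1.2.1 β, fun j => ?_⟩) ⟨?_, ?_⟩
    · obtain ⟨X, rfl⟩ := X
      exact sup_le (iSup_le fun e =>
        (X.1.2.2 (lastT n β j) e.1 e.2 β).trans ((X.1.2.1 β).1 (posfib_lastT_le h0 _ j)))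
        (X.2 β j)
    · rintro ⟨X, hX⟩ ⟨Y, hY⟩ h
      refine Subtype.ext (Subtype.ext (Subtype.ext (funext fun α => ?_)))
      by_cases hα : s α
      · exact congrArg Subtype.val (congrFun h ⟨α, hα⟩)
      · exact congrFun (congrArg Subtype.val (hX.trans hY.symm)) ⟨α, hα⟩
    · intro H
      obtain ⟨X, hp, hq⟩ : ∃ X : ∀ α, ℕ → Submodule F (V α),
          (∀ α (h : s α), X α = (H ⟨α, h⟩).1) ∧ ∀ α (h : ¬ s α), X α = G.1 ⟨α, h⟩ :=
        ⟨fun α => if h : s α then (H ⟨α, h⟩).1 else G.1 ⟨α, h⟩, fun _ h => dif_pos h,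
          fun _ h => dif_neg h⟩
      refine ⟨⟨⟨⟨X, fun α => ?_, fun t k α β => ?_⟩, fun α j => ?_⟩,
        Subtype.ext (funext fun α => hq _ α.2)⟩, funext fun β => Subtype.ext (hp _ β.2)⟩
      · by_cases hα : s α
        · rw [hp α hα]; exact (H ⟨α, hα⟩).2.1
        · rw [hq α hα]; exact G.2.1 ⟨α, hα⟩
      · by_cases hα : s α
        · rw [hs k α β hα, Submodule.map_zero]; exact bot_le
        · rw [hq α hα]
          by_cases hβ : s β
          · rw [hp β hβ]
            refine le_trans ?_ (le_sup_left.trans ((H ⟨β, hβ⟩).2.2 (n t β)))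
            exact le_iSup_of_le (k, ⟨α, hα⟩) (Submodule.map_mono
              ((G.2.1 ⟨α, hα⟩).1 (hn (posfib_le_lastT le_rfl) α)))
          · rw [hq β hβ]; exact G.2.2 t k ⟨α, hα⟩ ⟨β, hβ⟩
      · by_cases hα : s α
        · change C α j ≤ X α j
          rw [hp α hα]
          exact le_sup_right.trans ((H ⟨α, hα⟩).2.2 j)
        · rw [hC' α hα]
          exact bot_le
  rw [e, Nat.card_pi]
  refine Nat.ModEq.prod fun β _ => flags_above hl _ fun i j hij => ?_
  exact sup_le_sup (iSup_mono fun e => Submodule.map_mono ((G.2.1 e.2).1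
    (hn (posfib_le_lastT ((posfib_lastT_le h0 _ i).trans hij)) _))) (hC β hij)

end Sink

section Rank

variable {F : Type} [Field F]

theorem rank_line {Δ U W : Type} [AddCommGroup U] [Module F U] [AddCommGroup W] [Module F W]
    [FiniteDimensional F W] (φ : U ≃ₗ[F] (Fin 2 → F)) (f : U →ₗ[F] W) (C : Submodule F W)
    (δ : Δ) (j : ℕ) : Good ((Fin 2 → F) ≃ₗ[F] (Fin 2 → F)) (j + 2)
      fun x : Δ → Projectivization F (Fin 2 → F) =>
        j + 1 - finrank F ((((x δ).submodule.comap (φ : U →ₗ[F] (Fin 2 → F))).map f ⊔ C :)) := by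
  let g : (Fin 2 → F) →ₗ[F] W := f ∘ₗ φ.symm
  have hS : Sys ((Fin 2 → F) ≃ₗ[F] (Fin 2 → F))
      {x : Δ → Projectivization F (Fin 2 → F) | (x δ).submodule ≤ C.comap g} := by
    by_cases h1 : C.comap g = ⊤
    · simp only [h1, le_top]
      exact Sys.const True
    by_cases h2 : ∃ y : Projectivization F (Fin 2 → F), y.submodule ≤ C.comap g
    · obtain ⟨y, hy⟩ := h2
      have h3 : ∀ z : Projectivization F (Fin 2 → F), z.submodule ≤ C.comap g →
          z.submodule = C.comap g := fun z hz => by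
        refine Submodule.eq_of_le_of_finrank_le hz ?_
        have h4 := Submodule.finrank_lt h1
        rw [finrank_fin_fun] at h4
        rw [Projectivization.finrank_submodule]
        omega
      have e : {x : Δ → Projectivization F (Fin 2 → F) | (x δ).submodule ≤ C.comap g} =
          {x | x δ = y} := Set.ext fun x =>
        ⟨fun hx => Projectivization.submodule_injective ((h3 _ hx).trans (h3 y hy).symm),
          fun hx => by rw [Set.mem_setOf_eq, show x δ = y from hx]; exact hy⟩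
      rw [e]
      exact Sys.pin δ y
    · have e : {x : Δ → Projectivization F (Fin 2 → F) | (x δ).submodule ≤ C.comap g} =
          {_x | False} := Set.ext fun x => ⟨fun hx => h2 ⟨_, hx⟩, False.elim⟩
      rw [e]
      exact Sys.const False
  have hG := ((Good.const (G := (Fin 2 → F) ≃ₗ[F] (Fin 2 → F)) (j - finrank F C)).add
    ((Good.const (j + 1 - finrank F C - (j - finrank F C))).mul (Good.ind hS))).mono
    (B' := j + 2) (by omega)
  have e : ∀ x : Δ → Projectivization F (Fin 2 → F),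
      ((x δ).submodule.comap (φ : U →ₗ[F] (Fin 2 → F))).map f = (x δ).submodule.map g :=
    fun x => by rw [Submodule.comap_equiv_eq_map_symm, ← Submodule.map_comp]
  refine (congrArg _ (funext fun x => ?_)).mp hG
  rw [e]
  by_cases hx : (x δ).submodule ≤ C.comap g
  · rw [Set.indicator_of_mem (show x ∈ {x : Δ → Projectivization F (Fin 2 → F) |
      (x δ).submodule ≤ C.comap g} from hx), sup_eq_right.2 (Submodule.map_le_iff_le_comap.2 hx),
      Pi.one_apply]
    omega
  · rw [Set.indicator_of_notMem (show x ∉ {x : Δ → Projectivization F (Fin 2 → F) |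
      (x δ).submodule ≤ C.comap g} from hx)]
    have h1 : finrank F C < finrank F ((x δ).submodule.map g ⊔ C :) :=
      Submodule.finrank_lt_finrank_of_lt (lt_of_le_of_ne le_sup_right fun h => hx
        (Submodule.map_le_iff_le_comap.1 (le_sup_left.trans h.ge)))
    have h2 := Submodule.finrank_add_le_finrank_add_finrank ((x δ).submodule.map g) C
    have h3 := Submodule.finrank_map_le g (x δ).submodule
    rw [Projectivization.finrank_submodule] at h3
    omega

variable {Γ : Type} {V : Γ → Type} [∀ α, AddCommGroup (V α)] [∀ α, Module F (V α)]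

theorem rank_one (φ : ∀ α : {α // finrank F (V α) = 2}, V α ≃ₗ[F] (Fin 2 → F)) {ι W : Type}
    [AddCommGroup W] [Module F W] [FiniteDimensional F W] (src : ι → Γ)
    (f : ∀ e, V (src e) →ₗ[F] W) (hU : ∀ e e', f e ≠ 0 → f e' ≠ 0 → finrank F (V (src e)) = 2 →
      finrank F (V (src e')) = 2 → e = e') (m : ι → ℕ) (C : Submodule F W) (j : ℕ) :
    Good ((Fin 2 → F) ≃ₗ[F] (Fin 2 → F)) (j + 2) fun x =>
      j + 1 - finrank F ((⨆ e, (flagOf F φ x (src e) (m e)).map (f e)) ⊔ C :) := by
  classical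
  let Act : ι → Prop := fun e => f e ≠ 0 ∧ finrank F (V (src e)) = 2 ∧ m e = 1
  let B : ι → Submodule F W := fun e =>
    (if m e = 0 then ⊥ else ⊤ : Submodule F (V (src e))).map (f e)
  have hB : ∀ x e, ¬ Act e → (flagOf F φ x (src e) (m e)).map (f e) = B e := fun x e he => by
    by_cases h0 : f e = 0
    · simp only [B, h0, Submodule.map_zero]
    · rw [poslow_const φ x fun h => he ⟨h0, h⟩]
  by_cases hA : ∃ e, Act e
  · obtain ⟨e0, he0⟩ := hA
    have h1 := rank_line (Δ := {α // finrank F (V α) = 2}) (φ ⟨src e0, he0.2.1⟩) (f e0)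
      ((⨆ e, ⨆ _ : e ≠ e0, B e) ⊔ C) ⟨src e0, he0.2.1⟩ j
    refine (congrArg _ (funext fun x => ?_)).mp h1
    rw [iSup_split_single (fun e => (flagOf F φ x (src e) (m e)).map (f e)) e0,
      poslow_line φ x he0.2, sup_assoc]
    have e : (⨆ e, ⨆ _ : e ≠ e0, (flagOf F φ x (src e) (m e)).map (f e)) =
        ⨆ e, ⨆ _ : e ≠ e0, B e :=
      iSup_congr fun e => iSup_congr fun he => hB x e fun h => he (hU e e0 h.1 he0.1 h.2.1 he0.2.1)
    rw [e]
  · have h3 := (Good.const (G := (Fin 2 → F) ≃ₗ[F] (Fin 2 → F))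
      (Γ := {α // finrank F (V α) = 2}) (P := Projectivization F (Fin 2 → F))
      (j + 1 - finrank F ((⨆ e, B e) ⊔ C :))).mono (B' := j + 2) (by omega)
    refine (congrArg _ (funext fun x => ?_)).mp h3
    rw [iSup_congr fun e => hB x e fun he => hA ⟨e, he⟩]

theorem rank_ker {ι W : Type} [Fintype ι] {U : ι → Type} [∀ e, AddCommGroup (U e)]
    [∀ e, Module F (U e)] [∀ e, FiniteDimensional F (U e)] [AddCommGroup W] [Module F W]
    (f : ∀ e, U e →ₗ[F] W) (st : ι → Prop) [DecidablePred st] (h0 : ∀ e, ¬ st e → f e = 0)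
    (hf : InjAt F f st) {e0 : ι} (he0 : st e0) (h1 : finrank F (U e0) ≤ 1) :
    ∃ (v : ∀ e, U e) (b : ℕ), b ≤ 1 ∧ (∀ e, ¬ st e → v e = 0) ∧ ∀ J : ∀ e, Submodule F (U e),
      finrank F (⨆ e, (J e).map (f e) :) + b * {J | ∀ e, v e ∈ J e}.indicator 1 J =
        ∑ e with st e, finrank F (J e) := by
  classical
  let J' : (∀ e, Submodule F (U e)) → ∀ e, Submodule F (U e) := fun J e =>
    if st e then J e else ⊥
  let K : (∀ e, Submodule F (U e)) → Submodule F (∀ e, U e) := fun J =>
    Submodule.pi Set.univ (J' J) ⊓ LinearMap.ker (posrankSum f)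
  have hmem : ∀ J v, v ∈ K J ↔ (∀ e, st e → v e ∈ J e) ∧ (∀ e, ¬ st e → v e = 0) ∧
      ∑ e, f e (v e) = 0 := fun J v => by
    simp only [K, Submodule.mem_inf, Submodule.mem_pi, Set.mem_univ, true_imp_iff,
      LinearMap.mem_ker, posrank_sum_apply, ← and_assoc]
    refine and_congr_left fun _ => ⟨fun h => ⟨fun e he => ?_, fun e he => ?_⟩, fun h e => ?_⟩
    · simpa only [J', if_pos he] using h e
    · simpa only [J', if_neg he, Submodule.mem_bot] using h e
    · by_cases he : st e
      · simpa only [J', if_pos he] using h.1 e he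
      · simpa only [J', if_neg he, Submodule.mem_bot] using h.2 e he
  have hnull : ∀ J : ∀ e, Submodule F (U e), finrank F (⨆ e, (J e).map (f e) :) +
      finrank F (K J) = ∑ e with st e, finrank F (J e) := fun J => by
    have h2 := posrank_nullity f (J' J)
    have e1 : (⨆ e, (J' J e).map (f e)) = ⨆ e, (J e).map (f e) := iSup_congr fun e => by
      by_cases he : st e
      · simp only [J', if_pos he]
      · simp [h0 e he]
    rw [e1] at h2
    rw [h2, Finset.sum_filter]
    refine Finset.sum_congr rfl fun e _ => ?_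
    by_cases he : st e
    · have e2 : J' J e = J e := if_pos he
      rw [e2, if_pos he]
    · have e2 : J' J e = ⊥ := if_neg he
      rw [e2, if_neg he, finrank_bot]
  have hle : ∀ J, K J ≤ K ⊤ := fun J v hv =>
    (hmem _ v).2 ⟨fun _ _ => trivial, ((hmem J v).1 hv).2⟩
  have hK : finrank F (K ⊤) ≤ 1 := by
    refine le_trans (LinearMap.finrank_le_finrank_of_injective
      (f := LinearMap.proj e0 ∘ₗ (K ⊤).subtype) ?_) h1
    rw [injective_iff_map_eq_zero]
    exact fun v hv => Subtype.ext (hf v.1 ((hmem _ _).1 v.2).2.1 ((hmem _ _).1 v.2).2.2 e0 he0 hv)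
  by_cases hb : K ⊤ = ⊥
  · refine ⟨0, 0, zero_le_one, fun _ _ => rfl, fun J => ?_⟩
    rw [← hnull J, le_bot_iff.1 ((hle J).trans hb.le), finrank_bot, zero_mul]
  · obtain ⟨v, hv, hv0⟩ := (Submodule.ne_bot_iff _).1 hb
    have hsp : Submodule.span F {v} = K ⊤ :=
      Submodule.eq_of_le_of_finrank_le ((Submodule.span_singleton_le_iff_mem _ _).2 hv)
        (by rwa [finrank_span_singleton hv0])
    refine ⟨v, 1, le_rfl, ((hmem _ _).1 hv).2.1, fun J => ?_⟩
    rw [← hnull J, one_mul]
    congr 1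
    by_cases hJ : ∀ e, v e ∈ J e
    · rw [Set.indicator_of_mem (show J ∈ {J | ∀ e, v e ∈ J e} from hJ), Pi.one_apply,
        ← finrank_span_singleton (K := F) hv0]
      have e : Submodule.span F {v} = K J := le_antisymm
        ((Submodule.span_singleton_le_iff_mem _ _).2
          ((hmem J v).2 ⟨fun e _ => hJ e, ((hmem _ _).1 hv).2⟩)) (hsp ▸ hle J)
      rw [e]
    · rw [Set.indicator_of_notMem (show J ∉ {J | ∀ e, v e ∈ J e} from hJ), eq_comm,
        Submodule.finrank_eq_zero, Submodule.eq_bot_iff]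
      intro w hw
      obtain ⟨t, rfl⟩ := Submodule.mem_span_singleton.1 (hsp.ge (hle J hw))
      by_contra h2
      have ht : t ≠ 0 := left_ne_zero_of_smul h2
      refine hJ fun e => ?_
      by_cases he : st e
      · exact (Submodule.smul_mem_iff _ ht).1 (((hmem J _).1 hw).1 e he)
      · rw [((hmem _ _).1 hv).2.1 e he]
        exact zero_mem _

end Rank

end Pool.Agent.P.MP_8598be_al.N
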