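import Pool.Agent.P.MP_8598be_al.E.PosMain
import Pool.Agent.P.MP_8598be_al.N.FTMult
import Pool.Agent.P.MP_8598be_al.N.FTSink

/-!
Positivity of the common value for class five on three generators.
-/

namespace Pool.Agent.P.MP_8598be_al.N

open Module E

section Rep

variable {F : Type} [Field F] [Fintype F] {l : ℕ} {Γ κ : Type} [Fintype Γ] [Fintype κ]
  {V : Γ → Type} [∀ α, AddCommGroup (V α)] [∀ α, Module F (V α)] [∀ α, FiniteDimensional F (V α)]

omit [Fintype κ] in
theorem sched_pin (hl : l ∣ Fintype.card F - 1) (a : κ → ∀ α β, V α →ₗ[F] V β) (top : Γ → Prop)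
    (hs : ∀ k β γ, top β → a k β γ = 0) (h2 : ∀ α, ¬ top α → finrank F (V α) ≤ 2)
    (h1 : ∀ k α β, ¬ top α → ¬ top β → a k α β ≠ 0 → finrank F (V α) ≤ 1)
    (hU : ∀ β k α k' α', top β → a k α β ≠ 0 → a k' α' β ≠ 0 → finrank F (V α) = 2 →
      finrank F (V α') = 2 → k = k' ∧ α = α')
    {R m : ℕ} (hD : ∀ α, finrank F (V α) ≤ R) (hm : Fintype.card Γ ≤ m) {r : ℕ}
    (n : Fin (r + 1) → Γ → ℕ) (hn : Monotone n) (hn0 : n 0 = 0)
    (C : ∀ α, ℕ → Submodule F (V α)) (hC : ∀ α, Monotone (C α))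
    (hC' : ∀ α, ¬ top α → ∀ j, C α j = ⊥) :
    ∃ N ≤ (R + 2) ^ (R * m) * 2 ^ m,
      Nat.card {X : Fam F a n | ∀ α j, C α j ≤ X.1 α j} ≡ N [MOD l] := by
  classical
  haveI := finite_fam (res F a top) fun t α => n t α
  letI := Fintype.ofFinite (Fam F (res F a top) fun t α => n t α)
  haveI : Finite (Projectivization F (Fin 2 → F)) := Projectivization.finite_of_finite _ _
  letI := Fintype.ofFinite ({α : {α // ¬ top α} // finrank F (V α) = 2} →
    Projectivization F (Fin 2 → F))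
  let φ : ∀ α : {α : {α // ¬ top α} // finrank F (V α) = 2}, V α ≃ₗ[F] (Fin 2 → F) := fun α =>
    LinearEquiv.ofFinrankEq _ _ (by rw [α.2, finrank_fin_fun])
  obtain ⟨S, hS, hf⟩ := low_sum (V := fun α : {α // ¬ top α} => V α) (fun α => h2 α α.2) φ
    (res F a top) (fun k α β => h1 k α β α.2 β.2) fun t α => n t α
  have h3 := fam_sinkC hl a top hs n hn hn0 C hC hC'
  rw [hf fun G => ∏ β : {β // top β}, ∏ j ∈ Finset.range (finrank F (V β)),
    (j + 1 - finrank F (img F a top (fun α => G α (n (lastT n β j) α)) β ⊔ C β j :))] at h3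
  have h4 := (Good.ind hS).mul (Good.prod (Finset.univ : Finset {β // top β}) fun β _ =>
    Good.prod (Finset.range (finrank F (V β))) fun j _ =>
      rank_one (V := fun α : {α // ¬ top α} => V α) φ
        (fun e : κ × {α // ¬ top α} => e.2) (fun e => a e.1 e.2 β)
        (fun e e' g1 g2 g3 g4 => Prod.ext (hU β _ _ _ _ β.2 g1 g2 g3 g4).1
          (Subtype.ext (hU β _ _ _ _ β.2 g1 g2 g3 g4).2))
        (fun e => n (lastT n β j) e.2) (C β j) j)
  obtain ⟨N, hN, h5⟩ := h4.count (line_card F hl) (line_fixed F)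
  refine ⟨N, hN.trans ?_, h3.trans h5⟩
  rw [one_mul]
  exact Nat.mul_le_mul (pm_prod_le (fun β => hD _) ((Fintype.card_subtype_le _).trans hm))
    (Nat.pow_le_pow_right two_pos (((Fintype.card_subtype_le _).trans
      (Fintype.card_subtype_le _)).trans hm))

theorem sched_five (hl : l ∣ Fintype.card F - 1) (a : κ → ∀ α β, V α →ₗ[F] V β)
    (high top : Γ → Prop) (st : κ → Γ → Γ → Prop) (h0 : ∀ k α β, ¬ st k α β → a k α β = 0)
    (hh : ∀ k β γ, high β → a k β γ = 0)
    (hK : ∀ β, high β → InjAt F (fun e : κ × Γ => a e.1 e.2 β) fun e => st e.1 e.2 β)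
    (hK' : ∀ β, high β → ∃ k α, ¬ high α ∧ st k α β ∧ finrank F (V α) ≤ 1)
    (hst : ∀ k α β, high β → st k α β → top α)
    (hs : ∀ k β γ, top β → ¬ high γ → a k β γ = 0)
    (h2 : ∀ α, ¬ high α → ¬ top α → finrank F (V α) ≤ 2)
    (h1 : ∀ k α β, ¬ high β → ¬ top β → a k α β ≠ 0 → finrank F (V α) ≤ 1)
    (hU : ∀ β k α k' α', top β → a k α β ≠ 0 → a k' α' β ≠ 0 → finrank F (V α) = 2 →
      finrank F (V α') = 2 → k = k' ∧ α = α')
    {R m : ℕ} (hD : ∀ α, finrank F (V α) ≤ R) (hm : Fintype.card Γ ≤ m) {r : ℕ}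
    (n : Fin (r + 1) → Γ → ℕ) (hn : Monotone n) (hn0 : n 0 = 0) :
    ∃ N ≤ (R + 2) ^ (R * m) * ((R + 2) ^ (R * m) * 2 ^ m), Nat.card (Fam F a n) ≡ N [MOD l] := by
  classical
  haveI := finite_fam (res F a high) fun t α => n t α
  letI := Fintype.ofFinite (Fam F (res F a high) fun t α => n t α)
  have hg : Function.Injective fun e : κ × {α // ¬ high α} => (e.1, e.2.1) :=
    fun e e' h => Prod.ext (congrArg (·.1) h) (Subtype.ext (congrArg (·.2) h))
  let p : Set (Fam F (res F a high) fun t α => n t α) → Prop := fun S =>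
    ∃ C : ∀ α : {α // ¬ high α}, ℕ → Submodule F (V α), (∀ α, Monotone (C α)) ∧
      (∀ α : {α // ¬ high α}, ¬ top α → ∀ j, C α j = ⊥) ∧ S = {X | ∀ α j, C α j ≤ X.1 α j}
  have hu : p Set.univ := ⟨fun _ _ => ⊥, fun _ => monotone_const, fun _ _ _ => rfl, by simp⟩
  have hi : ∀ S T, p S → p T → p (S ∩ T) := by
    rintro _ _ ⟨C, c1, c2, rfl⟩ ⟨D, d1, d2, rfl⟩
    refine ⟨fun α j => C α j ⊔ D α j, fun α => (c1 α).sup (d1 α), fun α hα j => by
      beta_reduce
      rw [c2 α hα, d2 α hα, bot_sup_eq], Set.ext fun X => ?_⟩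
    simp only [Set.mem_inter_iff, Set.mem_setOf_eq, sup_le_iff, forall_and]
  have hp : ∀ S, p S → ∃ N ≤ (R + 2) ^ (R * m) * 2 ^ m, Nat.card S ≡ N [MOD l] := by
    rintro _ ⟨C, c1, c2, rfl⟩
    exact sched_pin (V := fun α : {α // ¬ high α} => V α) hl (res F a high) (fun α => top α)
      (fun k β γ h => hs k β γ h γ.2) (fun α => h2 α α.2) (fun k α β _ => h1 k α β β.2)
      (fun β k α k' α' g0 g1 g2 g3 g4 => ⟨(hU β k α k' α' g0 g1 g2 g3 g4).1,
        Subtype.ext (hU β k α k' α' g0 g1 g2 g3 g4).2⟩) (fun α => hD α)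
      ((Fintype.card_subtype_le _).trans hm) (fun t α => n t α) (fun t t' h α => hn h α)
      (funext fun α => congrFun hn0 α) C c1 c2
  have hG : ∀ (β : {β // high β}) (j : ℕ), GoodS p (j + 2) fun G =>
      j + 1 - finrank F (img F a high (fun α => G.1 α (n (lastT n β j) α)) β) := fun β j => by
    obtain ⟨k0, α0, g1, g2, g3⟩ := hK' β β.2
    obtain ⟨v, b, hb, hv, hr⟩ := rank_ker (U := fun e : κ × {α // ¬ high α} => V e.2)
      (fun e => a e.1 e.2 β) (fun e => st e.1 e.2 β) (fun e => h0 _ _ _)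
      ((hK β β.2).comp _ hg) (e0 := (k0, ⟨α0, g1⟩)) g2 g3
    set M := ∑ e : κ × {α // ¬ high α} with st e.1 e.2 β,
      min (n (lastT n β j) e.2) (finrank F (V e.2)) with hM
    have hS : p {G | ∀ e : κ × {α // ¬ high α}, v e ∈ G.1 e.2 (n (lastT n β j) e.2)} := by
      refine ⟨fun α i => if n (lastT n β j) α ≤ i then
        Submodule.span F (Set.range fun k => v (k, α)) else ⊥, fun α i i' h => ?_,
        fun α hα i => ?_, Set.ext fun G => ⟨fun hG α i => ?_, fun hG e => ?_⟩⟩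
      · beta_reduce
        by_cases e : n (lastT n β j) α ≤ i
        · rw [if_pos e, if_pos (e.trans h)]
        · rw [if_neg e]
          exact bot_le
      · beta_reduce
        split_ifs
        · rw [Submodule.span_eq_bot]
          rintro _ ⟨k, rfl⟩
          exact hv (k, α) fun h => hα (hst k α β β.2 h)
        · rfl
      · beta_reduce
        split_ifs with e
        · refine Submodule.span_le.2 ?_
          rintro _ ⟨k, rfl⟩
          exact (G.2.1 α).1 e (hG (k, α))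
        · exact bot_le
      · have h3 := hG e.2 (n (lastT n β j) e.2)
        beta_reduce at h3
        rw [if_pos le_rfl] at h3
        exact h3 (Submodule.subset_span ⟨e.1, rfl⟩)
    have h3 := ((GoodS.const hu (j + 1 - M)).add
      ((GoodS.const hu (j + 1 - (M - b) - (j + 1 - M))).mul hu hi (GoodS.ind hS))).mono
      (B' := j + 2) (by omega)
    refine (congrArg _ (funext fun G => ?_)).mp h3
    have h4 := hr fun e => G.1 e.2 (n (lastT n β j) e.2)
    rw [Finset.sum_congr rfl fun e _ => (G.2.1 e.2).2 _, ← hM] at h4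
    rw [img]
    by_cases hx : ∀ e : κ × {α // ¬ high α}, v e ∈ G.1 e.2 (n (lastT n β j) e.2)
    · rw [Set.indicator_of_mem (by exact hx), Pi.one_apply] at h4 ⊢
      omega
    · rw [Set.indicator_of_notMem (by exact hx)] at h4 ⊢
      omega
  obtain ⟨N, hN, h5⟩ := (GoodS.prod hu hi (Finset.univ : Finset {β // high β}) fun β _ =>
    GoodS.prod hu hi (Finset.range (finrank F (V β))) fun j _ => hG β j).count hp
  exact ⟨N, hN.trans (Nat.mul_le_mul_right _ (pm_prod_le (fun β : {β // high β} => hD β)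
    ((Fintype.card_subtype_le _).trans hm))), (fam_sink hl a high hh n hn hn0).trans h5⟩

omit [Fintype κ] in
theorem rep_pos' (hl : l ∣ Fintype.card F - 1) (a : κ → ∀ α β, V α →ₗ[F] V β) (deg : Γ → ℕ)
    (hd : ∀ k α β, a k α β ≠ 0 → deg α < deg β) {r : ℕ} (hr : ∑ α, finrank F (V α) = r) {M : ℕ}
    (hM : ∀ n : Fin (r + 1) → Γ → ℕ, Monotone n → n 0 = 0 →
      ∃ N ≤ M, Nat.card (Fam F a n) ≡ N [MOD l]) : ∃ N, 0 < N ∧
      N ≤ (r + 1) ^ (Fintype.card Γ * (r + 1)) * (r.factorial ^ Fintype.card Γ + M) ∧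
      repFlags F a r ≡ N [MOD l] := by
  classical
  have hD : ∀ α, finrank F (V α) ≤ r := fun α =>
    hr ▸ Finset.single_le_sum (f := fun α => finrank F (V α)) (fun _ _ => Nat.zero_le _)
      (Finset.mem_univ α)
  obtain ⟨n0, hn0, h3⟩ := sorted_sched hl a hr deg hd
  have h4 : ∀ n : Fin (r + 1) → Γ → ℕ, ∃ N, (n = n0 → 0 < N) ∧
      (n ∈ schedSet (fun α => finrank F (V α)) r → N ≤ r.factorial ^ Fintype.card Γ + M ∧
      Nat.card (Fam F a n) ≡ N [MOD l]) := fun n => by
    by_cases h : n = n0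
    · refine ⟨_, fun _ => Finset.prod_pos fun α _ => Nat.factorial_pos _, fun _ =>
        ⟨le_add_right ?_, h ▸ h3⟩⟩
      exact Finset.prod_le_pow_card _ _ _ fun α _ => Nat.factorial_le (hD α)
    by_cases h' : n ∈ schedSet (fun α => finrank F (V α)) r
    · obtain ⟨N, h5, h6⟩ := hM n (sched_mono h').1 (sched_mono h').2
      exact ⟨N, fun e => (h e).elim, fun _ => ⟨le_add_left h5, h6⟩⟩
    · exact ⟨0, fun e => (h e).elim, fun e => (h' e).elim⟩
  choose N hN hN' using h4
  refine ⟨∑ n ∈ schedSet (fun α => finrank F (V α)) r, N n, ?_, ?_, ?_⟩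
  · exact (hN n0 rfl).trans_le (Finset.single_le_sum (fun _ _ => Nat.zero_le _) hn0)
  · refine (Finset.sum_le_card_nsmul _ _ _ fun n h => (hN' n h).1).trans ?_
    refine Nat.mul_le_mul_right _ ((Finset.card_filter_le _ _).trans ?_)
    rw [Fintype.card_piFinset, Finset.prod_const, Finset.card_univ, Fintype.card_fin, pow_mul,
      Fintype.card_piFinset]
    refine Nat.pow_le_pow_left (Finset.prod_le_pow_card _ _ _ fun α _ => ?_) _
    rw [Finset.card_range]
    exact Nat.succ_le_succ (hD α)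
  · rw [repFlags_eq a hr]
    exact Nat.ModEq.sum fun n h => (hN' n h).2

end Rep

variable {I : Type} [Fintype I] [DecidableEq I] {τ : I → FreeMagma (Fin 3)}
  {A : Fin 5 ⊕ Fin 3 → Matrix I I ℤ}

theorem ft_step (β : Fin 3 → Fin (5 + 1)) (hβ : degF β = 5) :
    ∃ k α, stepF k α β ∧ ∃ j, (α j : ℕ) = 0 := by
  revert β
  unfold degF stepF
  decide +kernel

theorem ft_unique {α α' β : Fin 3 → Fin (5 + 1)} {k k' : Fin 3} (h : stepF k α β)
    (h' : stepF k' α' β) (hβ : degF β = 4) (h0 : ∀ j, (α j : ℕ) ≠ 0) (h0' : ∀ j, (α' j : ℕ) ≠ 0) :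
    k = k' ∧ α = α' := by
  have e1 := pm_step h
  have e2 := pm_step h'
  have key : ∀ γ : Fin 3 → Fin (5 + 1), degF γ + 1 = 4 → (∀ j, (γ j : ℕ) ≠ 0) →
      ∀ j, (γ j : ℕ) = 1 := fun γ g1 g2 j => by
    rw [degF, Fin.sum_univ_three] at g1
    have := g2 0
    have := g2 1
    have := g2 2
    fin_cases j <;> simp only [Fin.zero_eta, Fin.mk_one, Fin.reduceFinMk] <;> omega
  have a1 := key α (by omega) h0
  have a2 := key α' (by omega) h0'
  refine ⟨?_, funext fun j => Fin.ext ((a1 j).trans (a2 j).symm)⟩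
  by_contra hk
  have b1 := h k
  have b2 := h' k
  rw [a1, Pi.single_eq_same] at b1
  rw [a2, Pi.single_eq_of_ne hk] at b2
  omega

theorem flag_pos_five (h : IsBasis 5 3 τ) (hA : IsModel 5 3 τ A) :
    ∃ B L : ℕ, ∀ (F : Type) [Field F] [Fintype F] (l : ℕ), l.Prime → l ∣ Fintype.card F - 1 →
      L ≤ l → ∃ N, 0 < N ∧ N ≤ B ∧ flagCount F A ≡ N [MOD l] := by
  obtain ⟨m, hm⟩ : ∃ m, Fintype.card (Fin 3 → Fin (5 + 1)) = m := ⟨_, rfl⟩
  refine ⟨(Fintype.card I + 1) ^ (m * (Fintype.card I + 1)) *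
    ((Fintype.card I).factorial ^ m + (Fintype.card I + 2) ^ (Fintype.card I * m) *
      ((Fintype.card I + 2) ^ (Fintype.card I * m) * 2 ^ m)), (5 + 1) ^ 3,
    fun F _ _ l hl hd hL => ?_⟩
  have h1 := flag_torus F hl hd (fun u => wF 5 (τ u)) (fun α => finFunctionFinEquiv α)
    (Fin.val_injective.comp finFunctionFinEquiv.injective)
    (fun α => (finFunctionFinEquiv α).2.trans_le hL) A
    (fun i => ⟨fun α => if degF α = i + 1 then 1 else 0, by
      rw [hA.1 i]
      simp only [degF, wF_val h, sum_wtT]⟩)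
    fun k => ⟨(5 + 1) ^ (k : ℕ), fun u' u hu => by
      simp only [finFunctionFinEquiv_apply, wF_val h, hA.2.1 k u' u hu, Pi.add_apply, add_mul,
        Finset.sum_add_distrib]
      congr 1
      rw [Finset.sum_eq_single k (fun j _ hj => by simp [hj]) (by simp)]
      simp⟩
  have hst : ∀ k α β, blk F (fun u => wF 5 (τ u)) (A (.inr k)) α β ≠ 0 → stepF k α β :=
    fun k α β e => by_contra fun e' => e (blk_step h hA F k α β e')
  have hz : ∀ (α : Fin 3 → Fin (5 + 1)) (j : Fin 3), degF α ≤ 4 → (α j : ℕ) = 0 →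
      finrank F ({u // wF 5 (τ u) = α} → F) ≤ 1 := fun α j e e' =>
    (pm_rank h F α).trans_le (mult_zero h _ e e')
  have hr := blk_rank F fun u => wF 5 (τ u)
  have hD : ∀ α, finrank F ({u // wF 5 (τ u) = α} → F) ≤ Fintype.card I := fun α =>
    hr ▸ Finset.single_le_sum (f := fun α => finrank F ({u // wF 5 (τ u) = α} → F))
      (fun _ _ => Nat.zero_le _) (Finset.mem_univ α)
  obtain ⟨N, hN, hB, h3⟩ := rep_pos' hd (fun k => blk F (fun u => wF 5 (τ u)) (A (.inr k))) degF
    (fun k α β e => by rw [pm_step (hst k α β e)]; omega) hr fun n hn hn0 =>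
    sched_five hd (fun k => blk F (fun u => wF 5 (τ u)) (A (.inr k))) (fun α => degF α = 5)
      (fun α => degF α = 4) stepF (blk_step h hA F) (fun k β γ e => blk_top h hA F k β γ e.ge)
      (fun β e => blk_injAt h hA F β e.le)
      (fun β e => by
        obtain ⟨k, α, g1, j, g2⟩ := ft_step β e
        have := pm_step g1
        exact ⟨k, α, by omega, g1, hz α j (by omega) g2⟩)
      (fun k α β e e' => by have := pm_step e'; omega)
      (fun k β γ e e' => by_contra fun e'' => e' (by have := pm_step (hst k β γ e''); omega))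
      (fun α e e' => (le_or_gt (degF α) 5).elim (fun e'' => (pm_rank h F α).trans_le
        (mult_three h _ (by change degF α ≤ 3; omega)))
        fun e'' => (pm_zero h F e'').trans_le (Nat.zero_le _))
      (fun k α β e e' e'' => by
        have e3 := pm_step (hst k α β e'')
        have e4 : degF α < 5 := not_le.1 fun e4 => e'' (blk_top h hA F k α β e4)
        exact (pm_rank h F α).trans_le (mult_two h _ (by change degF α ≤ 2; omega)))
      (fun β k α k' α' e g1 g2 g3 g4 => ft_unique (hst _ _ _ g1) (hst _ _ _ g2) e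
        (fun j g => by
          have := pm_step (hst _ _ _ g1)
          have := hz α j (by omega) g
          omega)
        fun j g => by
          have := pm_step (hst _ _ _ g2)
          have := hz α' j (by omega) g
          omega)
      hD hm.le n hn hn0
  rw [hm] at hB
  exact ⟨N, hN, hB, h1.trans h3⟩

theorem five_three {W : RatXY} (hW : Uniform 5 3 W) :
    ∃ v : ℚ, 0 < v ∧ BothValues (rk 5 3) W v := by
  obtain ⟨τ, hτ⟩ := exists_basis 5 3
  obtain ⟨A, hA⟩ := exists_model hτ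
  obtain ⟨e, S, L, h1, h2⟩ := E.main hτ hA hW
  obtain ⟨B, L', h3⟩ := flag_pos_five hτ hA
  obtain ⟨l, hl, hl'⟩ := Nat.exists_infinite_primes (L + L' + e.natAbs + B + 1)
  obtain ⟨p, hp, hp', hp''⟩ := Nat.exists_prime_gt_modEq_one (S.sup id) hl'.ne_zero
  haveI := Fact.mk hp
  have hd : l ∣ p - 1 := (Nat.modEq_iff_dvd' hp.one_le).1 hp''.symm
  obtain ⟨N, hN, hB, h4⟩ := h3 (ZMod p) l hl' (by rwa [ZMod.card]) (by omega)
  have h5 := (h2 p l (fun h => hp'.not_ge (Finset.le_sup (f := id) h)) hl' hd (by omega)).trans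
    (Int.natCast_modEq_iff.2 h4)
  have h6 : (N : ℤ) - e = 0 := Int.eq_zero_of_abs_lt_dvd h5.dvd (by rw [abs_lt]; omega)
  exact ⟨_, div_pos (Int.cast_pos.2 (by omega)) (Nat.cast_pos.2 (Nat.factorial_pos _)), h1⟩

end Pool.Agent.P.MP_8598be_al.N
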