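import Pool.Agent.P.MP_8598be_al.N.Tor
import Pool.Agent.P.MP_8598be_al.E.Main

/-!
For uniform pairs the number of stable multigraded chains is constant modulo `l`.
-/

namespace Pool.Agent.P.MP_8598be_al.N

open Module E

variable {F : Type} [Field F] {c d : ℕ}

theorem permL_of (σ : Equiv.Perm (Fin d)) (k : Fin d) :
    permL F σ (FreeLieAlgebra.of F k) = FreeLieAlgebra.of F (σ k) :=
  FreeLieAlgebra.lift_of_apply _ _

theorem permL_mul (σ σ' : Equiv.Perm (Fin d)) (x : FreeLieAlgebra F (Fin d)) :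
    permL F (σ * σ') x = permL F σ (permL F σ' x) := by
  have h : permL F (σ * σ') = (permL F σ).comp (permL F σ') :=
    FreeLieAlgebra.hom_ext fun k => by simp [permL_of]
  rw [h]
  rfl

theorem permL_one (x : FreeLieAlgebra F (Fin d)) : permL F 1 x = x := by
  have h : permL F (1 : Equiv.Perm (Fin d)) = LieHom.id :=
    FreeLieAlgebra.hom_ext fun k => by simp [permL_of]
  rw [h]
  rfl

/-- The automorphism of the free Lie algebra that permutes the generators, as a linear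
equivalence. -/
noncomputable def permE (F : Type) [Field F] (σ : Equiv.Perm (Fin d)) :
    FreeLieAlgebra F (Fin d) ≃ₗ[F] FreeLieAlgebra F (Fin d) where
  __ := (permL F σ).toLinearMap
  invFun := permL F σ⁻¹
  left_inv x := by
    change permL F σ⁻¹ (permL F σ x) = x
    rw [← permL_mul, inv_mul_cancel, permL_one]
  right_inv x := by
    change permL F σ (permL F σ⁻¹ x) = x
    rw [← permL_mul, mul_inv_cancel, permL_one]

theorem permE_apply (σ : Equiv.Perm (Fin d)) (x : FreeLieAlgebra F (Fin d)) :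
    permE F σ x = permL F σ x := rfl

theorem single_comp (σ : Equiv.Perm (Fin d)) (k : Fin d) :
    (Pi.single (σ k) 1 : Fin d → ℕ) ∘ σ = Pi.single k 1 := by
  funext j
  simp [Pi.single_apply]

theorem permL_lieT (σ : Equiv.Perm (Fin d)) (t : FreeMagma (Fin d)) :
    permL F σ (lieT F t) = lieT F (t.map σ) ∧ wtT (t.map σ) ∘ σ = wtT t := by
  induction t using FreeMagma.rec with
  | of k => exact ⟨permL_of σ k, single_comp σ k⟩
  | mul a b ha hb =>
    refine ⟨?_, ?_⟩
    · rw [lieT, LieHom.map_lie, ha.1, hb.1]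
      rfl
    · rw [wtT, ← ha.2, ← hb.2]
      rfl

theorem permL_mem (σ : Equiv.Perm (Fin d)) {α : Fin d → ℕ} {x : FreeLieAlgebra F (Fin d)}
    (hx : x ∈ mpiece F (α ∘ σ)) : permL F σ x ∈ mpiece F α := by
  have h : mpiece F (α ∘ σ) ≤ (mpiece F α).comap (permL F σ).toLinearMap := by
    refine Submodule.span_le.2 ?_
    rintro _ ⟨t, ht, rfl⟩
    have ht' : wtT t = α ∘ σ := ht
    change permL F σ (lieT F t) ∈ mpiece F α
    have e : wtT (t.map σ) = α :=
      σ.surjective.injective_comp_right ((permL_lieT (F := F) σ t).2.trans ht')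
    rw [(permL_lieT σ t).1, ← e]
    exact lieT_mem _
  exact h hx

/-- The image of a family of subspaces under a permutation of the generators. -/
noncomputable def act (σ : Equiv.Perm (Fin d))
    (J : (Fin d → ℕ) → Submodule F (FreeLieAlgebra F (Fin d))) (α : Fin d → ℕ) :
    Submodule F (FreeLieAlgebra F (Fin d)) :=
  (J (α ∘ σ)).map (permE F σ : FreeLieAlgebra F (Fin d) →ₗ[F] FreeLieAlgebra F (Fin d))

theorem mem_act {σ : Equiv.Perm (Fin d)}
    {J : (Fin d → ℕ) → Submodule F (FreeLieAlgebra F (Fin d))} {α : Fin d → ℕ}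
    {x : FreeLieAlgebra F (Fin d)} : x ∈ act σ J α ↔ permL F σ⁻¹ x ∈ J (α ∘ σ) :=
  Submodule.mem_map_equiv _

theorem act_one (J : (Fin d → ℕ) → Submodule F (FreeLieAlgebra F (Fin d))) : act 1 J = J := by
  funext α
  ext x
  rw [mem_act, inv_one, permL_one]
  rfl

theorem act_mul (σ σ' : Equiv.Perm (Fin d))
    (J : (Fin d → ℕ) → Submodule F (FreeLieAlgebra F (Fin d))) :
    act (σ * σ') J = act σ (act σ' J) := by
  funext α
  ext x
  rw [mem_act, mem_act, mem_act, mul_inv_rev, permL_mul]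
  rfl

theorem act_mpiece (σ : Equiv.Perm (Fin d)) : act σ (mpiece F) = mpiece F := by
  funext α
  ext x
  rw [mem_act]
  refine ⟨fun h => ?_, fun h => permL_mem σ⁻¹ ?_⟩
  · have := permL_mem σ h
    rwa [← permL_mul, mul_inv_cancel, permL_one] at this
  · have e : (α ∘ σ) ∘ (σ⁻¹ : Equiv.Perm (Fin d)) = α := funext fun j => by simp
    rwa [e]

theorem act_rank (σ : Equiv.Perm (Fin d))
    (J : (Fin d → ℕ) → Submodule F (FreeLieAlgebra F (Fin d))) (α : Fin d → ℕ) :
    finrank F (act σ J α) = finrank F (J (α ∘ σ)) :=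
  LinearEquiv.finrank_map_eq _ _

theorem act_mid (σ : Equiv.Perm (Fin d))
    {J : (Fin d → ℕ) → Submodule F (FreeLieAlgebra F (Fin d))} (hJ : IsMId F c J) :
    IsMId F c (act σ J) := by
  refine ⟨fun α => ?_, fun α hα => ?_, fun α k x hx => ?_⟩
  · rw [← act_mpiece σ]
    exact Submodule.map_mono (hJ.le _)
  · rw [← act_mpiece σ, act, act, hJ.top]
    rwa [← Equiv.sum_comp σ α] at hα
  · rw [mem_act] at hx ⊢
    have := hJ.lie _ (σ⁻¹ k) _ hx
    rw [LieHom.map_lie, permL_of]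
    have e : (α + Pi.single k 1 : Fin d → ℕ) ∘ σ = α ∘ σ + Pi.single (σ⁻¹ k) 1 := by
      rw [← single_comp σ (σ⁻¹ k), show σ (σ⁻¹ k) = k by simp]
      rfl
    rwa [e]

theorem act_codim (σ : Equiv.Perm (Fin d))
    (J : (Fin d → ℕ) → Submodule F (FreeLieAlgebra F (Fin d))) :
    codim F c (act σ J) = codim F c J := by
  refine Finset.sum_bijective (fun α => α ∘ σ) ⟨σ.surjective.injective_comp_right,
    σ.injective.surjective_comp_right⟩ (fun α => ?_) fun α _ => ?_
  · rw [mem_box, mem_box]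
    exact ⟨fun h k => h _, fun h k => by simpa using h (σ⁻¹ k)⟩
  · rw [act_rank, ← act_rank σ (mpiece F), act_mpiece]

theorem act_eq_iff {P : Subgroup (Equiv.Perm (Fin d))}
    {J : (Fin d → ℕ) → Submodule F (FreeLieAlgebra F (Fin d))} :
    (∀ σ ∈ P, act σ J = J) ↔ ∀ σ ∈ P, Stable F σ J := by
  refine ⟨fun h σ hσ α x hx => ?_, fun h σ hσ => funext fun α => Submodule.ext fun x => ?_⟩
  · rw [← h σ hσ]
    exact ⟨x, hx, rfl⟩
  · refine ⟨?_, fun hx => mem_act.2 (h σ⁻¹ (P.inv_mem hσ) _ x ?_)⟩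
    · rintro ⟨y, hy, rfl⟩
      exact h σ hσ α y hy
    · have e : (α ∘ σ) ∘ (σ⁻¹ : Equiv.Perm (Fin d)) = α := funext fun j => by simp
      rwa [e]

/-- The action of the permutations of the generators on chains. -/
@[reducible] noncomputable def chainAct (F : Type) [Field F] (c n d : ℕ) :
    MulAction (Equiv.Perm (Fin d)) {Λ // IsChain F c n (d := d) Λ} where
  smul σ Λ := ⟨fun j => act σ (Λ.1 j), fun _ _ e α => Submodule.map_mono (Λ.2.mono e _),
    fun j => act_mid σ (Λ.2.mid j), fun j hj => by rw [Λ.2.top j hj, act_mpiece], by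
      simp only [act_codim]
      exact Λ.2.sum⟩
  one_smul Λ := Subtype.ext (funext fun j => act_one _)
  mul_smul σ σ' Λ := Subtype.ext (funext fun j => act_mul σ σ' _)

theorem chain_perm {n : ℕ} [Finite {Λ // IsChain F c n (d := d) Λ}] {l : ℕ} (hl : l.Prime)
    (P : Subgroup (Equiv.Perm (Fin d))) (hP : IsPGroup l P) :
    Nat.card {Λ // IsChain F c n (d := d) Λ} ≡ fixCount F c n P [MOD l] := by
  have := Fact.mk hl
  letI := chainAct F c n d
  refine (hP.card_modEq_card_fixedPoints _).trans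
    (Eq.subst (motive := fun m => _ ≡ m [MOD l]) ?_ (Nat.ModEq.refl _))
  refine Nat.card_congr ⟨fun Λ => ⟨Λ.1.1, Λ.1.2, fun σ hσ j => act_eq_iff.1
      (fun σ hσ => congrFun (congrArg Subtype.val (Λ.2 ⟨σ, hσ⟩)) j) σ hσ⟩,
    fun Λ => ⟨⟨Λ.1, Λ.2.1⟩, fun σ => Subtype.ext (funext fun j =>
      act_eq_iff.2 (fun σ hσ => Λ.2.2 σ hσ j) σ.1 σ.2)⟩, fun _ => rfl, fun _ => rfl⟩

theorem fix_const {W : RatXY} (hW : Uniform c d W) {l : ℕ} (hl : l.Prime)
    (P : Subgroup (Equiv.Perm (Fin d))) (hP : IsPGroup l P) (n : ℕ) :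
    ∃ (k : ℕ) (S : Finset ℕ) (C : ZMod l), ∀ (p : ℕ) [Fact p.Prime], p ∉ S → l ^ k ∣ p - 1 →
      (fixCount (ZMod p) c n P : ZMod l) = C := by
  classical
  obtain ⟨τ, hτ⟩ := exists_basis c d
  obtain ⟨A, hA⟩ := exists_model hτ
  obtain ⟨S, hS⟩ := hW
  have h0 : ∀ (p : ℕ) [Fact p.Prime], p ∉ S → ∀ (o : Type) [CommRing o] [IsDomain o]
      [IsDiscreteValuationRing o] [CharZero o] [Algebra ℤ_[p] o] [Module.Finite ℤ_[p] o],
      Nat.card (IsLocalRing.ResidueField o) = p → Ser W p fun n => subCount o A (p ^ n) := by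
    intro p _ hp o _ _ _ _ _ _ ho
    have := hS p hp o
    rw [ho, zetaSeries] at this
    simpa only [Ser, map_natCast, idealCount_eq hτ hA] using this
  let a : ℕ → ℕ → ℕ := fun p n =>
    if h : p.Prime then (haveI := Fact.mk h; subCount ℤ_[p] A (p ^ n)) else 0
  have h1 : ∀ p : ℕ, p.Prime → p ∉ S → Ser W p fun n => a p n := fun p hp hp' => by
    haveI := Fact.mk hp
    simp only [a, dif_pos hp]
    exact h0 p hp' ℤ_[p] (by rw [Nat.card_congr PadicInt.residueField.toEquiv, Nat.card_zmod])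
  obtain ⟨A0, b, L, hb, hL, hW0⟩ := denom_shape W S (fun p n => a p n) fun p hp hp' =>
    ⟨h1 p hp hp', by
      haveI := Fact.mk hp
      simp only [a, dif_pos hp]
      exact denef p A⟩
  obtain ⟨A1, α, S', -, h2, -⟩ := denom_clear W S a h1 A0 b L hb hL hW0
  obtain ⟨D, hD, Q, hQ⟩ := denb_den (α n)
  obtain ⟨v, D', hD', rfl⟩ := Nat.exists_eq_pow_mul_and_not_dvd hD.ne' l hl.ne_one
  obtain ⟨k, hk1, hk2, hk3⟩ : ∃ k, v + 1 ≤ k ∧ n < l ^ k ∧ (c + 1) ^ d ≤ l ^ k :=
    ⟨v + 1 + n + (c + 1) ^ d, by omega,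
      lt_of_le_of_lt (by omega) (Nat.lt_pow_self hl.one_lt),
      le_trans (by omega) (Nat.lt_pow_self hl.one_lt).le⟩
  have con : ∀ p : ℕ, p.Prime → p ∉ S' → l ^ k ∣ p - 1 →
      ((l ^ k : ℕ) : ℤ) ∣ (l ^ v * D' : ℕ) * a p n - Q.eval 1 := fun p hp hS hk => by
    have e : Q.eval (p : ℤ) = (l ^ v * D' : ℕ) * a p n := by
      have := hQ p
      rw [Int.cast_natCast, h2 p hp hS] at this
      exact_mod_cast this
    rw [← e]
    refine dvd_trans ?_ (Polynomial.sub_dvd_eval_sub (p : ℤ) 1 Q)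
    have := Int.natCast_dvd_natCast.2 hk
    rwa [Nat.cast_sub hp.one_le, Nat.cast_one] at this
  obtain ⟨p0, c1, c2, c3⟩ := Nat.exists_prime_gt_modEq_one (S'.sup id) (pow_ne_zero k hl.ne_zero)
  have c4 := con p0 c1 (fun c => not_le.2 c2 (Finset.le_sup (f := id) c))
    ((Nat.modEq_iff_dvd' c1.one_le).1 c3.symm)
  refine ⟨k, S ∪ S', (a p0 n : ZMod l), fun p hp h5 h6 => ?_⟩
  have hp'' : p ∉ S := fun h => h5 (Finset.mem_union_left _ h)
  have g0 : a p n ≡ a p0 n [MOD l] := by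
    have t := dvd_sub c4 (con p hp.out (fun h => h5 (Finset.mem_union_right _ h)) h6)
    rw [sub_sub_sub_cancel_right, ← mul_sub] at t
    have t1 : ((l : ℤ) ^ v * l) ∣ (l : ℤ) ^ v * (D' * (a p0 n - a p n)) := by
      rw [← pow_succ, ← mul_assoc]
      exact_mod_cast (Int.natCast_dvd_natCast.2 (pow_dvd_pow l hk1)).trans t
    have t2 := (mul_dvd_mul_iff_left (pow_ne_zero v (Int.natCast_ne_zero.2 hl.ne_zero))).1 t1
    refine Nat.modEq_iff_dvd.2 (((Nat.prime_iff_prime_int.1 hl).dvd_or_dvd t2).resolve_left ?_)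
    exact fun c => hD' (Int.natCast_dvd_natCast.1 c)
  obtain ⟨o, _, _, _, _, _, _, ho, ϖ, f, g1, g2, g3⟩ := exists_ring p (l ^ k) (pow_pos hl.pos k)
  have g4 := congrFun (ser_unique (h1 p hp.out hp'') (h0 p hp'' o ho)) n
  rw [Nat.cast_inj.1 g4, subCount_quot g1 ho hp.out.ne_zero f g2 g3 A hk2.le] at g0
  have g5 := rotP (ZMod p) hl (k := k) (by rwa [ZMod.card]) A hk2
  rw [ZMod.card] at g5
  have g6 := chain_torus (F := ZMod p) hτ hA hl (k := k) (by rwa [ZMod.card]) hk3 n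
  haveI := finite_chain (F := ZMod p) hτ hA n
  exact (ZMod.natCast_eq_natCast_iff _ _ _).2
    (((g5.trans (g6.trans (chain_perm hl P hP))).symm).trans g0)

end Pool.Agent.P.MP_8598be_al.N
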