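import Pool.Agent.P.MP_8598be_al.N.Defs
import Pool.Agent.P.MP_8598be_al.E.Model

/-!
Multihomogeneous parts in the coordinates of a basis.
-/

namespace Pool.Agent.P.MP_8598be_al.N

open Module Matrix E

variable {F : Type} [Field F] {I : Type} [Fintype I] [DecidableEq I] {c d : ℕ}
  {τ : I → FreeMagma (Fin d)} {A : Fin c ⊕ Fin d → Matrix I I ℤ}

theorem lieT_mem (t : FreeMagma (Fin d)) : lieT F t ∈ mpiece F (wtT t) :=
  Submodule.subset_span ⟨t, rfl, rfl⟩

theorem mpiece_lie {α β : Fin d → ℕ} {x y : FreeLieAlgebra F (Fin d)} (hx : x ∈ mpiece F α)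
    (hy : y ∈ mpiece F β) : ⁅x, y⁆ ∈ mpiece F (α + β) := by
  induction hx using Submodule.span_induction with
  | mem x hx =>
    obtain ⟨s, rfl, rfl⟩ := hx
    induction hy using Submodule.span_induction with
    | mem y hy =>
      obtain ⟨t, rfl, rfl⟩ := hy
      exact lieT_mem (.mul s t)
    | zero => rw [lie_zero]; exact zero_mem _
    | add y z _ _ h1 h2 => rw [lie_add]; exact add_mem h1 h2
    | smul a y _ h1 => rw [lie_smul]; exact Submodule.smul_mem _ _ h1
  | zero => rw [zero_lie]; exact zero_mem _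
  | add y z _ _ h1 h2 => rw [add_lie]; exact add_mem h1 h2
  | smul a y _ h1 => rw [smul_lie]; exact Submodule.smul_mem _ _ h1

theorem mpiece_lie_of {α : Fin d → ℕ} {x : FreeLieAlgebra F (Fin d)} (hx : x ∈ mpiece F α)
    (k : Fin d) : ⁅x, FreeLieAlgebra.of F k⁆ ∈ mpiece F (α + Pi.single k 1) :=
  mpiece_lie hx (lieT_mem (.of k))

theorem mem_box {α : Fin d → ℕ} : α ∈ box c d ↔ ∀ k, α k ≤ c := by
  simp [box, Nat.lt_succ_iff]

theorem mem_box_of_sum {α : Fin d → ℕ} (h : ∑ k, α k ≤ c) : α ∈ box c d :=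
  mem_box.2 fun k => (Finset.single_le_sum (f := α) (fun _ _ => Nat.zero_le _)
    (Finset.mem_univ k)).trans h

theorem sum_add_single (α : Fin d → ℕ) (k : Fin d) :
    ∑ j, (α + Pi.single k 1 : Fin d → ℕ) j = ∑ j, α j + 1 := by
  simp [Finset.sum_add_distrib]

/-- Projection to the coordinates of multidegree `α`. -/
def prj (τ : I → FreeMagma (Fin d)) (F : Type) [Field F] (α : Fin d → ℕ) : (I → F) →ₗ[F] (I → F) :=
  LinearMap.pi fun u => if wtT (τ u) = α then LinearMap.proj u else 0

omit [Fintype I] [DecidableEq I] in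
theorem prj_apply (α : Fin d → ℕ) (v : I → F) (u : I) :
    prj τ F α v u = if wtT (τ u) = α then v u else 0 := by
  simp only [prj, LinearMap.pi_apply]
  split_ifs <;> rfl

omit [Fintype I] [DecidableEq I] in
theorem prj_prj (α β : Fin d → ℕ) (v : I → F) :
    prj τ F β (prj τ F α v) = if β = α then prj τ F β v else 0 := by
  funext u
  split_ifs with h
  · subst h
    simp only [prj_apply]
    split_ifs <;> rfl
  · simp only [prj_apply]
    split_ifs with h1 h2
    · exact (h (h1.symm.trans h2)).elim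
    · rfl
    · rfl

omit [Fintype I] [DecidableEq I] in
theorem sum_prj (h : IsBasis c d τ) (v : I → F) : ∑ α ∈ box c d, prj τ F α v = v := by
  funext u
  rw [Finset.sum_apply]
  simp only [prj_apply]
  rw [Finset.sum_ite_eq, if_pos (mem_box_of_sum ((sum_wtT _).trans_le (h.1 u)))]

omit [Fintype I] [DecidableEq I] in
theorem prj_eq_zero (h : IsBasis c d τ) {α : Fin d → ℕ} (hα : c < ∑ k, α k) (v : I → F) :
    prj τ F α v = 0 := by
  funext u
  rw [prj_apply, if_neg]
  · rfl
  · intro e
    have := h.1 u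
    rw [← sum_wtT, e] at this
    omega

/-- The element with coordinates `v`. -/
noncomputable def emb (τ : I → FreeMagma (Fin d)) (F : Type) [Field F] :
    (I → F) →ₗ[F] FreeLieAlgebra F (Fin d) :=
  Fintype.linearCombination F fun u => lieT F (τ u)

omit [DecidableEq I] in
theorem emb_apply (v : I → F) : emb τ F v = ∑ u, v u • lieT F (τ u) :=
  Fintype.linearCombination_apply _ _ _

omit [DecidableEq I] in
theorem emb_inj (h : IsBasis c d τ) : Function.Injective (emb τ F) :=
  (model_indep h F).fintypeLinearCombination_injective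

theorem emb_single (u : I) : emb τ F (Pi.single u 1) = lieT F (τ u) := by
  rw [emb, Fintype.linearCombination_apply_single, one_smul]

/-- The part of multidegree `α` of the element with coordinates `v`. -/
noncomputable def mT (τ : I → FreeMagma (Fin d)) (F : Type) [Field F] (α : Fin d → ℕ) :
    (I → F) →ₗ[F] FreeLieAlgebra F (Fin d) := emb τ F ∘ₗ prj τ F α

omit [DecidableEq I] in
theorem mT_apply (α : Fin d → ℕ) (v : I → F) : mT τ F α v = emb τ F (prj τ F α v) := rfl

omit [DecidableEq I] in
theorem mT_prj (α β : Fin d → ℕ) (v : I → F) :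
    mT τ F β (prj τ F α v) = if β = α then mT τ F β v else 0 := by
  rw [mT_apply, prj_prj]
  split_ifs
  · rfl
  · exact map_zero _

theorem mT_single (α : Fin d → ℕ) (u : I) :
    mT τ F α (Pi.single u 1) = if wtT (τ u) = α then lieT F (τ u) else 0 := by
  rw [mT_apply]
  split_ifs with h
  · rw [← emb_single]
    congr 1
    funext w
    rw [prj_apply]
    split_ifs with h'
    · rfl
    · rw [Pi.single_eq_of_ne]
      rintro rfl
      exact h' h
  · rw [← map_zero (emb τ F)]
    congr 1
    funext w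
    rw [prj_apply]
    split_ifs with h'
    · rw [Pi.single_eq_of_ne]
      · rfl
      · rintro rfl
        exact h h'
    · rfl

omit [DecidableEq I] in
theorem mT_mem (α : Fin d → ℕ) (v : I → F) : mT τ F α v ∈ mpiece F α := by
  rw [mT_apply, emb_apply]
  refine Submodule.sum_mem _ fun u _ => ?_
  rw [prj_apply]
  split_ifs with h
  · exact Submodule.smul_mem _ _ (h ▸ lieT_mem _)
  · rw [zero_smul]; exact zero_mem _

theorem prj_mulVec (hA : IsModel c d τ A) (k : Fin d) (α : Fin d → ℕ) (v : I → F) :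
    prj τ F (α + Pi.single k 1) ((A (.inr k)).map (Int.cast : ℤ → F) *ᵥ v) =
      (A (.inr k)).map (Int.cast : ℤ → F) *ᵥ prj τ F α v := by
  funext w
  rw [prj_apply]
  simp only [mulVec, dotProduct, map_apply, prj_apply]
  split_ifs with h
  · refine Finset.sum_congr rfl fun u _ => ?_
    by_cases e : A (.inr k) w u = 0
    · simp [e]
    · rw [if_pos (add_right_cancel ((hA.2.1 k w u e).symm.trans h))]
  · refine (Finset.sum_eq_zero fun u _ => ?_).symm
    by_cases e : A (.inr k) w u = 0
    · simp [e]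
    · rw [if_neg, mul_zero]
      intro e'
      exact h (by rw [hA.2.1 k w u e, e'])

theorem prj_mulVec_zero (hA : IsModel c d τ A) (k : Fin d) {β : Fin d → ℕ} (hβ : β k = 0)
    (v : I → F) : prj τ F β ((A (.inr k)).map (Int.cast : ℤ → F) *ᵥ v) = 0 := by
  funext w
  rw [prj_apply]
  split_ifs with h
  · simp only [mulVec, dotProduct, map_apply]
    refine Finset.sum_eq_zero fun u _ => ?_
    by_cases e : A (.inr k) w u = 0
    · simp [e]
    · have := congrFun (hA.2.1 k w u e) k
      rw [h, hβ] at this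
      simp at this
  · rfl

theorem mT_lie (hA : IsModel c d τ A) (k : Fin d) {α : Fin d → ℕ} (hα : ∑ j, α j < c)
    (v : I → F) : mT τ F (α + Pi.single k 1) ((A (.inr k)).map (Int.cast : ℤ → F) *ᵥ v) =
      ⁅mT τ F α v, FreeLieAlgebra.of F k⁆ := by
  rw [mT_apply, prj_mulVec hA, mT_apply]
  have key : ∀ x : I → F, (∀ u, wtT (τ u) ≠ α → x u = 0) →
      emb τ F ((A (.inr k)).map (Int.cast : ℤ → F) *ᵥ x) =
        ⁅emb τ F x, FreeLieAlgebra.of F k⁆ := fun x hx => by
    conv_lhs => rw [pi_eq_sum_univ' x]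
    rw [emb_apply x]
    simp only [mulVec_sum, mulVec_smul, map_sum, map_smul, sum_lie, smul_lie]
    refine Finset.sum_congr rfl fun u _ => ?_
    by_cases hu : wtT (τ u) = α
    · rw [hA.2.2 F k u (by rw [← sum_wtT, hu]; exact hα), emb_apply]
      simp only [mulVec_single_one, col_apply, map_apply]
    · rw [hx u hu, zero_smul, zero_smul]
  exact key _ fun u hu => by rw [prj_apply, if_neg hu]

omit [Fintype I] [DecidableEq I] in
attribute [local instance 100] LieRing.ofAssociativeRing in
theorem exists_gen (h : IsBasis c d τ) (hc : 0 < c) (k : Fin d) : ∃ u, τ u = .of k := by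
  by_contra hn
  push Not at hn
  let φ : FreeLieAlgebra ℚ (Fin d) →ₗ⁅ℚ⁆ ℚ :=
    FreeLieAlgebra.lift ℚ fun j => (if j = k then 1 else 0 : ℚ)
  have h1 : FreeLieAlgebra.of ℚ k ∈ piece ℚ d 0 := Submodule.subset_span ⟨k, rfl⟩
  rw [(h.2 ℚ).1 0 hc] at h1
  have h2 : Submodule.span ℚ ((fun u => lieT ℚ (τ u)) '' {u | (τ u).length = 0 + 1}) ≤
      LinearMap.ker φ.toLinearMap := by
    refine Submodule.span_le.2 ?_
    rintro _ ⟨u, hu, rfl⟩
    have hu' : (τ u).length = 1 := hu
    change φ (lieT ℚ (τ u)) = 0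
    rcases e : τ u with j | ⟨a, b⟩
    · rw [lieT, FreeLieAlgebra.lift_of_apply, if_neg]
      rintro rfl
      exact hn u e
    · rw [e] at hu'
      have h3 : a.length + b.length = 1 := hu'
      have := FreeMagma.length_pos a
      have := FreeMagma.length_pos b
      omega
  have h3 : φ (FreeLieAlgebra.of ℚ k) = 0 := h2 h1
  rw [FreeLieAlgebra.lift_of_apply, if_pos rfl] at h3
  exact one_ne_zero h3

theorem mT_range (h : IsBasis c d τ) (hA : IsModel c d τ A) {α : Fin d → ℕ}
    (hα : ∑ k, α k ≤ c) : LinearMap.range (mT τ F α) = mpiece F α := by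
  refine le_antisymm (by rintro _ ⟨v, rfl⟩; exact mT_mem α v) (Submodule.span_le.2 ?_)
  have L2 : ∀ (t : FreeMagma (Fin d)) (β : Fin d → ℕ), ∑ k, β k + t.length ≤ c →
      ∀ x ∈ LinearMap.range (mT τ F β), ⁅x, lieT F t⁆ ∈ LinearMap.range (mT τ F (β + wtT t)) := by
    intro t
    induction t using FreeMagma.rec with
    | of k =>
      rintro β hβ _ ⟨v, rfl⟩
      exact ⟨_, mT_lie hA k (by simp only [FreeMagma.length] at hβ; omega) v⟩
    | mul a b ha hb =>
      intro β hβ x hx
      have hβ' : ∑ k, β k + (a.length + b.length) ≤ c := hβ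
      have s1 : ∀ t : FreeMagma (Fin d), ∑ k, (β + wtT t) k = ∑ k, β k + t.length := fun t => by
        simp [Finset.sum_add_distrib, sum_wtT]
      have h1 := hb (β + wtT a) (by rw [s1]; omega) _ (ha β (by omega) x hx)
      have h2 := ha (β + wtT b) (by rw [s1]; omega) _ (hb β (by omega) x hx)
      rw [add_right_comm] at h2
      rw [lieT, wtT, ← add_assoc, leibniz_lie, ← lie_skew (lieT F a)]
      exact add_mem h1 (neg_mem h2)
  have L3 : ∀ t : FreeMagma (Fin d), t.length ≤ c →
      lieT F t ∈ LinearMap.range (mT τ F (wtT t)) := by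
    intro t
    induction t using FreeMagma.rec with
    | of k =>
      intro hk
      obtain ⟨u, hu⟩ := exists_gen h hk k
      exact ⟨Pi.single u 1, by rw [mT_single, hu, if_pos rfl]⟩
    | mul a b ha _ =>
      intro hk
      have hk' : a.length + b.length ≤ c := hk
      exact L2 b _ (by rw [sum_wtT]; exact hk') _ (ha (by omega))
  rintro _ ⟨t, rfl, rfl⟩
  exact L3 t (by rwa [sum_wtT] at hα)

end Pool.Agent.P.MP_8598be_al.N
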