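import Pool.Agent.P.MP_8598be_al.E.Rot

/-!
Loop rotation by roots of unity of prime power order.
-/

namespace Pool.Agent.P.MP_8598be_al.N

open Polynomial E

section Aux

open Matrix

variable {I ι F S : Type} [Field F] [CommRing S] [Algebra F S] {l : ℕ}
  {b : Module.Basis (Fin l) F S} {t : S}

theorem rotP_gen [Fintype I] [Fintype F] {l0 k0 : ℕ} (hl0 : l0.Prime) (hl : l = l0 ^ k0)
    (hb : ∀ j, b j = t ^ (j : ℕ))
    (ht : t ^ l = 0) {σ : S →ₐ[F] S} {z : F} (hσ : σ t = z • t) (hz : IsPrimitiveRoot z l)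
    (A : ι → Matrix I I ℤ) {n : ℕ} (hn : n < l) :
    subCount S A (Fintype.card F ^ n) ≡ chainCount F A n [MOD l0] := by
  classical
  have := Fact.mk hl0
  have hl1 : 1 ≤ l := by omega
  have : Finite S := Finite.of_equiv _ b.equivFun.toEquiv.symm
  have hτ := rot_pow_eq (I := I) hb hσ hz.pow_eq_one
  have hs : Function.Surjective (σ.toLinearMap.compLeft I).toAddMonoidHom := fun v =>
    ⟨(σ.toLinearMap.compLeft I ^ (l - 1)) v, by
      have h := hτ v
      rwa [← Nat.sub_add_cancel hl1, pow_succ', Module.End.mul_apply] at h⟩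
  let T : Function.End {Λ : Submodule S (I → S) // Inv S A Λ ∧
      Λ.toAddSubgroup.index = Fintype.card F ^ n} := fun Λ => ⟨rotT σ Λ.1, fun k v hv => by
      have e : σ.toLinearMap.compLeft I ((A k).map (Int.cast : ℤ → S) *ᵥ v) =
          (A k).map (Int.cast : ℤ → S) *ᵥ σ.toLinearMap.compLeft I v := by
        funext i
        change σ (∑ j, (A k i j : S) * v j) = ∑ j, (A k i j : S) * σ (v j)
        simp only [map_sum, map_mul, map_intCast]
      rw [rot_mem_T, e]
      exact Λ.2.1 k _ hv,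
    (AddSubgroup.index_comap_of_surjective Λ.1.toAddSubgroup hs).trans Λ.2.2⟩
  have hT : ∀ k Λ v, v ∈ ((T ^ k) Λ).1 ↔ (σ.toLinearMap.compLeft I ^ k) v ∈ Λ.1 := fun k => by
    induction k with
    | zero => exact fun _ _ => Iff.rfl
    | succ k ih =>
      intro Λ v
      rw [pow_succ', pow_succ, Module.End.mul_apply, ← ih]
      exact Iff.rfl
  have h1 : T ^ l0 ^ k0 = 1 := by
    funext Λ
    refine Subtype.ext (Submodule.ext fun v => ?_)
    rw [← hl, hT, hτ]
    exact Iff.rfl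
  let := Fintype.ofFinite {Λ : Submodule S (I → S) // Inv S A Λ ∧
      Λ.toAddSubgroup.index = Fintype.card F ^ n}
  have h2 := Equiv.Perm.card_fixedPoints_modEq h1
  rw [← Nat.card_eq_fintype_card, ← Nat.card_eq_fintype_card (α := T.fixedPoints)] at h2
  refine h2.trans (Eq.subst (motive := fun m => _ ≡ m [MOD l0]) ?_ (Nat.ModEq.refl _))
  have hL : ∀ Λ : T.fixedPoints, rotL hb ht (rotJ F t Λ.1.1) (rotJ_mono _) = Λ.1.1 := fun Λ => by
    have hf : rotT σ Λ.1.1 = Λ.1.1 := congrArg Subtype.val Λ.2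
    ext v
    rw [rot_mem_L]
    refine ⟨fun h => rot_sum hb v ▸ sum_mem fun j _ => h j, fun h j => ?_⟩
    exact rot_mem_of_sum (σ.toLinearMap.compLeft I) (Λ.1.1.restrictScalars F)
      (fun w hw => rot_mem_T.1 (hf.symm ▸ hw : w ∈ rotT σ Λ.1.1)) (fun j : Fin l => z ^ (j : ℕ))
      (fun i j e => Fin.ext (hz.pow_inj i.2 j.2 e)) Finset.univ
      (fun j => rotEmb I F t j (rotCf I b j v)) (fun j => rot_eig hσ _ _)
      (by rwa [rot_sum hb]) j (Finset.mem_univ _)
  have hsum : ∀ J : ℕ → Submodule F (I → F), (∀ j, n ≤ j → J j = ⊤) →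
      ∑ j ∈ Finset.range l, (Fintype.card I - Module.finrank F (J j)) =
        ∑ j ∈ Finset.range n, (Fintype.card I - Module.finrank F (J j)) := fun J hJ =>
    (Finset.sum_subset (Finset.range_subset_range.2 hn.le) fun j _ hj => by
      rw [hJ j (by simpa using hj), finrank_top, Module.finrank_fintype_fun_eq_card,
        Nat.sub_self]).symm
  refine Nat.card_congr
    { toFun := fun Λ => ⟨rotJ F t Λ.1.1, ?_⟩
      invFun := fun J => ⟨⟨rotL hb ht J.1 J.2.1, fun k v hv i => ?_, ?_⟩,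
        Subtype.ext (Submodule.ext fun v => ?_)⟩
      left_inv := fun Λ => Subtype.ext (Subtype.ext (hL Λ))
      right_inv := fun J => Subtype.ext (funext fun j => Submodule.ext fun u => ?_) }
  · have e := rot_index hb ht (rotJ F t Λ.1.1) (rotJ_mono _)
    rw [hL, Λ.1.2.2] at e
    have e' := Nat.pow_right_injective (Fintype.one_lt_card (α := F)) e
    have top : ∀ j, n ≤ j → rotJ F t Λ.1.1 j = ⊤ := fun j hj => by
      by_contra hc
      have h3 : ∀ i ∈ Finset.range (n + 1),
          1 ≤ Fintype.card I - Module.finrank F (rotJ F t Λ.1.1 i) := fun i hi => by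
        have h4 := Submodule.finrank_mono (rotJ_mono (F := F) (t := t) Λ.1.1
          ((Nat.lt_succ_iff.1 (Finset.mem_range.1 hi)).trans hj))
        have h5 := Submodule.finrank_lt hc
        rw [Module.finrank_fintype_fun_eq_card] at h5
        omega
      have h6 := (Finset.card_nsmul_le_sum _ _ _ h3).trans
        (Finset.sum_le_sum_of_subset (Finset.range_subset_range.2 hn))
      rw [← e', Finset.card_range, smul_eq_mul] at h6
      omega
    refine ⟨rotJ_mono _, fun j k u hu => ?_, top, by rw [← hsum _ top, ← e']⟩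
    rw [rot_mem_J, ← rot_mulVec]
    exact Λ.1.2.1 k _ hu
  · rw [← rot_sum hb v, Matrix.mulVec_sum, map_sum]
    refine sum_mem fun j _ => ?_
    rw [rot_mulVec]
    exact rot_cf_mem hb ht (J.2.2.1 j k _ (hv j)) i
  · rw [rot_index, hsum _ J.2.2.2.1, J.2.2.2.2]
  · have e : ∀ j : Fin l, rotCf I b j (σ.toLinearMap.compLeft I v) = z ^ (j : ℕ) • rotCf I b j v :=
      fun j => by
      conv_lhs => rw [← rot_sum hb v, map_sum, map_sum]
      simp only [rot_eig hσ, map_smul, rot_cf_emb hb ht, Fin.val_inj, smul_ite, smul_zero,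
        Finset.sum_ite_eq, Finset.mem_univ, if_true]
    change σ.toLinearMap.compLeft I v ∈ rotL hb ht J.1 J.2.1 ↔ v ∈ rotL hb ht J.1 J.2.1
    simp only [rot_mem_L, e, Submodule.smul_mem_iff _ (pow_ne_zero _ (hz.ne_zero (by omega : l ≠ 0)))]
  · change rotEmb I F t j u ∈ rotL hb ht J.1 J.2.1 ↔ _
    rw [rot_mem_L]
    refine ⟨fun h => ?_, fun h => rot_cf_mem hb ht h⟩
    by_cases hj : j < l
    · simpa [rot_cf_emb hb ht] using h ⟨j, hj⟩
    · rw [J.2.2.2.1 j (by omega)]
      trivial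

end Aux

theorem exists_root (F : Type) [Field F] [Fintype F] {e : ℕ} (h : e ∣ Fintype.card F - 1) :
    ∃ z : F, IsPrimitiveRoot z e := by
  classical
  obtain ⟨g, hg⟩ := IsCyclic.exists_ofOrder_eq_natCard (α := Fˣ)
  rw [Nat.card_eq_fintype_card, Fintype.card_units] at hg
  have h0 : orderOf g ≠ 0 := (orderOf_pos g).ne'
  refine ⟨(g ^ (orderOf g / e) : Fˣ), IsPrimitiveRoot.coe_units_iff.2 ?_⟩
  have h1 := IsPrimitiveRoot.orderOf (g ^ (orderOf g / e))
  rwa [orderOf_pow_orderOf_div h0 (hg ▸ h)] at h1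

theorem rotP {I ι : Type} [Fintype I] (F : Type) [Field F] [Fintype F] {l k : ℕ} (hl : l.Prime)
    (h : l ^ k ∣ Fintype.card F - 1) (A : ι → Matrix I I ℤ) {n : ℕ} (hn : n < l ^ k) :
    subCount (AdjoinRoot (X ^ l ^ k : F[X])) A (Fintype.card F ^ n) ≡ chainCount F A n [MOD l] := by
  classical
  obtain ⟨z, hz'⟩ := exists_root F h
  have ht : AdjoinRoot.root (X ^ l ^ k : F[X]) ^ l ^ k = 0 := by
    rw [← AdjoinRoot.mk_X, ← map_pow, AdjoinRoot.mk_self]
  exact rotP_gen (b := (AdjoinRoot.powerBasis' (monic_X_pow (R := F) (l ^ k))).basis.reindex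
      (finCongr (natDegree_X_pow (l ^ k)))) hl rfl (fun j => by simp) ht
    (σ := AdjoinRoot.liftAlgHom _ (Algebra.ofId F _)
      ((z : F) • AdjoinRoot.root (X ^ l ^ k : F[X]))
      (by rw [eval₂_X_pow, _root_.smul_pow, ht, smul_zero]))
    (AdjoinRoot.liftAlgHom_root _ _ _ _) hz' A hn

end Pool.Agent.P.MP_8598be_al.N
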