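import Pool.Agent.P.MP_8598be_al.N.Mp
import Pool.Agent.P.MP_8598be_al.N.RotP
import Pool.Agent.P.MP_8598be_al.E.PosT

/-!
Torus fixed chains are chains of multigraded ideals.
-/

namespace Pool.Agent.P.MP_8598be_al.N

open Module Matrix E

variable {F : Type} [Field F] {I : Type} [Fintype I] [DecidableEq I] {c d : ℕ}
  {τ : I → FreeMagma (Fin d)} {A : Fin c ⊕ Fin d → Matrix I I ℤ}

/-- The subspace contains the multihomogeneous components of its elements. -/
def Gr (τ : I → FreeMagma (Fin d)) (J : Submodule F (I → F)) : Prop :=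
  ∀ v ∈ J, ∀ α, prj τ F α v ∈ J

/-- The multigraded ideal of a subspace of coordinate vectors. -/
noncomputable def up (c : ℕ) (τ : I → FreeMagma (Fin d)) (J : Submodule F (I → F))
    (α : Fin d → ℕ) : Submodule F (FreeLieAlgebra F (Fin d)) :=
  if c < ∑ k, α k then mpiece F α else J.map (mT τ F α)

/-- The subspace of coordinate vectors of a multigraded ideal. -/
noncomputable def down (τ : I → FreeMagma (Fin d))
    (Λ : (Fin d → ℕ) → Submodule F (FreeLieAlgebra F (Fin d))) : Submodule F (I → F) :=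
  ⨅ α, (Λ α).comap (mT τ F α)

omit [DecidableEq I] in
theorem mem_down {Λ : (Fin d → ℕ) → Submodule F (FreeLieAlgebra F (Fin d))} {v : I → F} :
    v ∈ down τ Λ ↔ ∀ α, mT τ F α v ∈ Λ α := by
  simp [down]

omit [DecidableEq I] in
theorem gr_down (Λ : (Fin d → ℕ) → Submodule F (FreeLieAlgebra F (Fin d))) :
    Gr τ (down τ Λ) := fun v hv α => by
  rw [mem_down] at hv ⊢
  intro β
  rw [mT_prj]
  split_ifs
  · exact hv β
  · exact zero_mem _

omit [DecidableEq I] in
theorem down_up (h : IsBasis c d τ) {J : Submodule F (I → F)} (hJ : Gr τ J) :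
    down τ (up c τ J) = J := by
  ext v
  rw [mem_down]
  refine ⟨fun hv => ?_, fun hv α => ?_⟩
  · rw [← sum_prj h v]
    refine Submodule.sum_mem _ fun α _ => ?_
    by_cases hα : c < ∑ k, α k
    · rw [prj_eq_zero h hα]
      exact zero_mem _
    · have h1 := hv α
      rw [up, if_neg hα] at h1
      obtain ⟨w, hw, e⟩ := h1
      rw [← emb_inj h e]
      exact hJ w hw α
  · rw [up]
    split_ifs
    · exact mT_mem α v
    · exact ⟨v, hv, rfl⟩

theorem up_down (h : IsBasis c d τ) (hA : IsModel c d τ A)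
    {Λ : (Fin d → ℕ) → Submodule F (FreeLieAlgebra F (Fin d))} (hΛ : IsMId F c Λ) :
    up c τ (down τ Λ) = Λ := by
  funext α
  rw [up]
  split_ifs with hα
  · exact (hΛ.top α hα).symm
  · refine le_antisymm ?_ fun x hx => ?_
    · rintro _ ⟨v, hv, rfl⟩
      exact mem_down.1 hv α
    · obtain ⟨v, rfl⟩ := (mT_range h hA (not_lt.1 hα)).ge (hΛ.le α hx)
      refine ⟨prj τ F α v, mem_down.2 fun β => ?_, by rw [mT_prj, if_pos rfl]⟩
      rw [mT_prj]
      split_ifs with e
      · rwa [e]
      · exact zero_mem _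

theorem up_top (h : IsBasis c d τ) (hA : IsModel c d τ A) :
    up c τ (⊤ : Submodule F (I → F)) = mpiece F := by
  funext α
  rw [up]
  split_ifs with hα
  · rfl
  · rw [Submodule.map_top, mT_range h hA (not_lt.1 hα)]

omit [DecidableEq I] in
theorem up_mono : Monotone (up c τ : Submodule F (I → F) → _) := fun J J' h α => by
  simp only [up]
  split_ifs
  · exact le_rfl
  · exact Submodule.map_mono h

theorem up_mid (hA : IsModel c d τ A) {J : Submodule F (I → F)} (hJ : Inv F A J) :
    IsMId F c (up c τ J) := by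
  have hle : ∀ α, up c τ J α ≤ mpiece F α := fun α => by
    rw [up]
    split_ifs
    · exact le_rfl
    · rintro _ ⟨v, -, rfl⟩
      exact mT_mem α v
  refine ⟨hle, fun α hα => if_pos hα, fun α k x hx => ?_⟩
  rw [up, sum_add_single]
  split_ifs with hα
  · exact mpiece_lie_of (hle α hx) k
  · rw [up, if_neg (by omega)] at hx
    obtain ⟨v, hv, rfl⟩ := hx
    exact ⟨_, hJ (.inr k) v hv, mT_lie hA k (by omega) v⟩

theorem down_inv (h : IsBasis c d τ) (hA : IsModel c d τ A)
    {Λ : (Fin d → ℕ) → Submodule F (FreeLieAlgebra F (Fin d))} (hΛ : IsMId F c Λ) :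
    Inv F A (down τ Λ) := by
  intro k v hv
  rw [mem_down] at hv ⊢
  intro β
  rcases k with i | k
  · rw [model_inl hA]
    have e : prj τ F β (modelPr τ F i v) =
        (if ∑ k, β k = i + 1 then 1 else 0 : F) • prj τ F β v := by
      funext u
      rw [Pi.smul_apply, prj_apply, prj_apply, modelPr_apply, ← sum_wtT]
      by_cases hu : wtT (τ u) = β
      · rw [if_pos hu, if_pos hu, hu]
        split_ifs <;> simp
      · simp [hu]
    rw [mT_apply, e, map_smul]
    exact Submodule.smul_mem _ _ (hv β)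
  · by_cases hβ : β k = 0
    · rw [mT_apply, prj_mulVec_zero hA k hβ, map_zero]
      exact zero_mem _
    · obtain ⟨α, rfl⟩ : ∃ α, β = α + Pi.single k 1 := ⟨β - Pi.single k 1, funext fun j => by
        by_cases e : j = k
        · subst e
          simp only [Pi.add_apply, Pi.sub_apply, Pi.single_eq_same]
          omega
        · simp [e]⟩
      by_cases hα : ∑ j, α j < c
      · rw [mT_lie hA k hα]
        exact hΛ.lie α k _ (hv α)
      · rw [mT_apply, prj_eq_zero h (by rw [sum_add_single]; omega), map_zero]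
        exact zero_mem _

omit [DecidableEq I] in
theorem gr_rank (h : IsBasis c d τ) {J : Submodule F (I → F)} (hJ : Gr τ J) :
    ∑ α ∈ box c d, finrank F (J.map (mT τ F α)) = finrank F J := by
  classical
  let e : J →ₗ[F] ∀ α : box c d, J.map (mT τ F α) :=
    LinearMap.pi fun α => (mT τ F α).submoduleMap J
  have he : Function.Bijective e := by
    refine ⟨(injective_iff_map_eq_zero e).2 fun v hv => Subtype.ext ?_, fun x => ?_⟩
    · rw [← sum_prj h v.1]
      refine Finset.sum_eq_zero fun α hα => emb_inj h ?_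
      rw [map_zero]
      exact congrArg Subtype.val (congrFun hv ⟨α, hα⟩)
    · choose v hv hv' using fun α => (x α).2
      refine ⟨⟨∑ α : box c d, prj τ F α (v α), Submodule.sum_mem _ fun α _ => hJ _ (hv α) α⟩,
        funext fun β => Subtype.ext ?_⟩
      show mT τ F β (∑ α : box c d, prj τ F α (v α)) = x β
      rw [map_sum, Finset.sum_eq_single β, mT_prj, if_pos rfl, hv']
      · intro α _ hα
        rw [mT_prj, if_neg fun h' => hα (Subtype.ext h').symm]
      · simp
  rw [(LinearEquiv.ofBijective e he).finrank_eq, Module.finrank_pi_fintype,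
    Finset.sum_coe_sort (box c d) fun α => finrank F (J.map (mT τ F α))]

theorem codim_up (h : IsBasis c d τ) (hA : IsModel c d τ A) {J : Submodule F (I → F)}
    (hJ : Gr τ J) : codim F c (up c τ J) = Fintype.card I - finrank F J := by
  have h1 := gr_rank (F := F) h (J := ⊤) fun _ _ _ => trivial
  rw [finrank_top, finrank_fintype_fun_eq_card] at h1
  rw [← h1, ← gr_rank h hJ, ← Finset.sum_tsub_distrib _ fun α _ =>
    Submodule.finrank_mono (Submodule.map_mono le_top), codim]
  refine Finset.sum_congr rfl fun α _ => ?_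
  by_cases hα : c < ∑ k, α k
  · have e : mT τ F α = 0 := LinearMap.ext fun v => by
      rw [mT_apply, prj_eq_zero h hα, map_zero, LinearMap.zero_apply]
    have e' : up c τ J α = mpiece F α := if_pos hα
    rw [e', e, Submodule.map_zero, Submodule.map_zero, Nat.sub_self, Nat.sub_self]
  · have e' : up c τ J α = J.map (mT τ F α) := if_neg hα
    rw [e', Submodule.map_top, mT_range h hA (not_lt.1 hα)]

/-- Chains of invariant subspaces. -/
def MCh (F : Type) [Field F] (A : Fin c ⊕ Fin d → Matrix I I ℤ) (n : ℕ)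
    (J : ℕ → Submodule F (I → F)) : Prop :=
  Monotone J ∧ (∀ j, Inv F A (J j)) ∧ (∀ j, n ≤ j → J j = ⊤) ∧
    ∑ j ∈ Finset.range n, (Fintype.card I - finrank F (J j)) = n

/-- Graded chains in coordinates are chains of multigraded ideals. -/
noncomputable def chainEquiv (h : IsBasis c d τ) (hA : IsModel c d τ A) (n : ℕ) :
    {J : {J // MCh F A n J} // ∀ j, Gr τ (J.1 j)} ≃ {Λ // IsChain F c n (d := d) Λ} where
  toFun J := ⟨fun j => up c τ (J.1.1 j), fun _ _ e => up_mono (J.1.2.1 e),
    fun j => up_mid hA (J.1.2.2.1 j), fun j hj => by rw [J.1.2.2.2.1 j hj, up_top h hA], by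
      rw [Finset.sum_congr rfl fun j _ => codim_up h hA (J.2 j)]
      exact J.1.2.2.2.2⟩
  invFun Λ := ⟨⟨fun j => down τ (Λ.1 j),
    fun _ _ e => iInf_mono fun α => Submodule.comap_mono (Λ.2.mono e α),
    fun j => down_inv h hA (Λ.2.mid j), fun j hj => by
      beta_reduce
      rw [Λ.2.top j hj, eq_top_iff]
      exact fun v _ => mem_down.2 fun α => mT_mem α v, by
      rw [← Finset.sum_congr rfl fun j _ => codim_up h hA (gr_down (Λ.1 j)),
        Finset.sum_congr rfl fun j _ => by rw [up_down h hA (Λ.2.mid j)]]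
      exact Λ.2.sum⟩, fun j => gr_down _⟩
  left_inv J := Subtype.ext (Subtype.ext (funext fun j => down_up h (J.2 j)))
  right_inv Λ := Subtype.ext (funext fun j => up_down h hA (Λ.2.mid j))

omit [DecidableEq I] in
theorem finite_mch [Finite F] (n : ℕ) : Finite {J // MCh F A n J} := by
  have : Finite (Submodule F (I → F)) := Finite.of_injective _ SetLike.coe_injective
  refine Finite.of_injective (fun J => fun j : Fin n => J.1 j) fun J J' e => ?_
  refine Subtype.ext (funext fun j => ?_)
  by_cases hj : j < n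
  · exact congrFun e ⟨j, hj⟩
  · rw [J.2.2.2.1 j (not_lt.1 hj), J'.2.2.2.1 j (not_lt.1 hj)]

theorem finite_chain [Finite F] (h : IsBasis c d τ) (hA : IsModel c d τ A) (n : ℕ) :
    Finite {Λ // IsChain F c n (d := d) Λ} :=
  haveI := finite_mch (F := F) (A := A) n
  Finite.of_equiv _ (chainEquiv h hA n)

/-- The number with digits `α` in base `c + 1`. -/
def enc (c : ℕ) (α : Fin d → ℕ) : ℕ := ∑ k : Fin d, α k * (c + 1) ^ (k : ℕ)

theorem enc_eq {α : Fin d → ℕ} (hα : α ∈ box c d) : enc c α =
    finFunctionFinEquiv fun k => (⟨α k, Nat.lt_succ_of_le (mem_box.1 hα k)⟩ : Fin (c + 1)) := by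
  rw [finFunctionFinEquiv_apply, enc]

theorem enc_lt {α : Fin d → ℕ} (hα : α ∈ box c d) : enc c α < (c + 1) ^ d := by
  rw [enc_eq hα]
  exact Fin.is_lt _

theorem enc_inj {α β : Fin d → ℕ} (hα : α ∈ box c d) (hβ : β ∈ box c d)
    (e : enc c α = enc c β) : α = β := by
  rw [enc_eq hα, enc_eq hβ] at e
  have := finFunctionFinEquiv.injective (Fin.ext e)
  exact funext fun k => congrArg Fin.val (congrFun this k)

theorem enc_add (α : Fin d → ℕ) (k : Fin d) :
    enc c (α + Pi.single k 1) = enc c α + (c + 1) ^ (k : ℕ) := by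
  simp only [enc, Pi.add_apply, add_mul, Finset.sum_add_distrib]
  congr 1
  rw [Finset.sum_eq_single k (fun j _ hj => by simp [hj]) (by simp)]
  simp

theorem chain_torus [Fintype F] (h : IsBasis c d τ) (hA : IsModel c d τ A) {l k : ℕ}
    (hl : l.Prime) (hd : l ^ k ∣ Fintype.card F - 1) (hk : (c + 1) ^ d ≤ l ^ k) (n : ℕ) :
    chainCount F A n ≡ Nat.card {Λ // IsChain F c n (d := d) Λ} [MOD l] := by
  classical
  have := Fact.mk hl
  obtain ⟨z, hz⟩ := exists_root F hd
  have hz0 : ∀ m : ℕ, z ^ m ≠ 0 := fun m => pow_ne_zero _ (hz.ne_zero (pow_ne_zero _ hl.ne_zero))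
  let D : (I → F) ≃ₗ[F] (I → F) := postD (fun u => z ^ enc c (wtT (τ u))) fun u => hz0 _
  have hD : ∀ v u, D v u = z ^ enc c (wtT (τ u)) * v u := fun _ _ => rfl
  have h3 : ∀ k, ∃ μ : ℕ, ∀ u' u, A k u' u ≠ 0 →
      enc c (wtT (τ u')) = enc c (wtT (τ u)) + μ := by
    rintro (i | k)
    · refine ⟨0, fun u' u h => ?_⟩
      by_cases e : u' = u
      · rw [e, add_zero]
      · rw [hA.1 i, diagonal_apply_ne _ e] at h
        exact absurd rfl h
    · exact ⟨_, fun u' u e => by rw [hA.2.1 k u' u e, enc_add]⟩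
  have h4 : ∀ k, ∃ s : F, ∀ v, D ((A k).map (Int.cast : ℤ → F) *ᵥ v) =
      s • ((A k).map (Int.cast : ℤ → F) *ᵥ D v) := fun k => by
    obtain ⟨μ, hμ⟩ := h3 k
    refine ⟨z ^ μ, fun v => funext fun u' => ?_⟩
    change z ^ enc c (wtT (τ u')) * ∑ u, (A k u' u : F) * v u =
      z ^ μ * ∑ u, (A k u' u : F) * (z ^ enc c (wtT (τ u)) * v u)
    rw [Finset.mul_sum, Finset.mul_sum]
    refine Finset.sum_congr rfl fun u _ => ?_
    by_cases e : A k u' u = 0
    · simp [e]
    · rw [hμ u' u e, pow_add]
      ring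
  let T : Function.End {J // MCh F A n J} := fun J =>
    ⟨fun t => (J.1 t).comap (D : (I → F) →ₗ[F] (I → F)),
      fun t t' h => Submodule.comap_mono (J.2.1 h), fun t k v hv => by
        obtain ⟨s, hs⟩ := h4 k
        change D _ ∈ J.1 t
        rw [hs]
        exact Submodule.smul_mem _ _ (J.2.2.1 t k _ hv), fun t ht => by
        beta_reduce
        rw [J.2.2.2.1 t ht, Submodule.comap_top], by
        refine Eq.trans (Finset.sum_congr rfl fun t _ => ?_) J.2.2.2.2
        beta_reduce
        rw [Submodule.comap_equiv_eq_map_symm, LinearEquiv.finrank_map_eq]⟩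
  have hT : ∀ k J t v, v ∈ ((T ^ k) J).1 t ↔
      (fun u => (z ^ enc c (wtT (τ u))) ^ k * v u) ∈ J.1 t := fun k => by
    induction k with
    | zero =>
      intro J t v
      simp only [pow_zero, one_mul]
      exact Iff.rfl
    | succ k ih =>
      intro J t v
      have e : (fun u => (z ^ enc c (wtT (τ u))) ^ (k + 1) * v u) =
          fun u => (z ^ enc c (wtT (τ u))) ^ k * D v u :=
        funext fun u => by rw [hD, pow_succ, mul_assoc]
      rw [pow_succ', e, ← ih]
      exact Iff.rfl
  have h5 : T ^ l ^ k = 1 := by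
    funext J
    refine Subtype.ext (funext fun t => Submodule.ext fun v => ?_)
    have e : (fun u => (z ^ enc c (wtT (τ u))) ^ l ^ k * v u) = v := funext fun u => by
      rw [← pow_mul, mul_comm (enc c _), pow_mul, hz.pow_eq_one, one_pow, one_mul]
    rw [hT, e]
    exact Iff.rfl
  have := finite_mch (F := F) (A := A) n
  let := Fintype.ofFinite {J // MCh F A n J}
  have h6 := Equiv.Perm.card_fixedPoints_modEq h5
  rw [← Nat.card_eq_fintype_card, ← Nat.card_eq_fintype_card (α := T.fixedPoints)] at h6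
  refine h6.trans (Eq.subst (motive := fun m => _ ≡ m [MOD l]) ?_ (Nat.ModEq.refl _))
  rw [← Nat.card_congr (chainEquiv h hA n)]
  have hprj : ∀ α v, D (prj τ F α v) = z ^ enc c α • prj τ F α v := fun α v => by
    funext u
    rw [hD, Pi.smul_apply, prj_apply, smul_eq_mul]
    split_ifs with e
    · rw [e]
    · rw [mul_zero, mul_zero]
  refine Nat.card_congr (Equiv.subtypeEquivRight fun J => ⟨fun hJ t v hv α => ?_, fun hJ => ?_⟩)
  · have hf : (J.1 t).comap (D : (I → F) →ₗ[F] (I → F)) = J.1 t :=
      congrFun (congrArg Subtype.val hJ) t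
    by_cases hα : α ∈ box c d
    · exact rot_mem_of_sum (D : (I → F) →ₗ[F] (I → F)) (J.1 t)
        (fun x hx => (hf.symm ▸ hx : x ∈ (J.1 t).comap (D : (I → F) →ₗ[F] (I → F))))
        (fun β : box c d => z ^ enc c β.1) (fun β γ e => Subtype.ext (enc_inj β.2 γ.2
          (hz.pow_inj ((enc_lt β.2).trans_le hk) ((enc_lt γ.2).trans_le hk) e))) Finset.univ
        (fun β : box c d => prj τ F β v) (fun β => by exact hprj β.1 v)
        (by rwa [Finset.sum_coe_sort (box c d) fun β => prj τ F β v, sum_prj h]) ⟨α, hα⟩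
        (Finset.mem_univ _)
    · rw [prj_eq_zero h (not_le.1 fun e => hα (mem_box_of_sum e))]
      exact zero_mem _
  · refine Subtype.ext (funext fun t => Submodule.ext fun v => ⟨fun hv => ?_, fun hv => ?_⟩)
    · have hv' : D v ∈ J.1 t := hv
      rw [← sum_prj h v]
      refine Submodule.sum_mem _ fun α _ => ?_
      have e : prj τ F α (D v) = z ^ enc c α • prj τ F α v := by
        rw [← hprj]
        funext u
        simp only [hD, prj_apply]
        split_ifs
        · rfl
        · rw [mul_zero]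
      have := hJ t _ hv' α
      rwa [e, Submodule.smul_mem_iff _ (hz0 _)] at this
    · change D v ∈ J.1 t
      rw [← sum_prj h v, map_sum]
      refine Submodule.sum_mem _ fun α _ => ?_
      rw [hprj]
      exact Submodule.smul_mem _ _ (hJ t v hv α)

end Pool.Agent.P.MP_8598be_al.N
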